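import Pool.Agent.D0H63.MR.Near

set_option autoImplicit false

/-! Exceptional points on few hypersurfaces and the approximations of complex vectors by points over number fields; relations
over arbitrary number fields. -/

namespace Pool.Agent.D0H63.MR

open Filter Set MeasureTheory NumberField
open scoped ENNReal
open Pool.Agent.Y890.MV (InnerM)
open Pool.Agent.Y124 (Cov)

/-- the exponent of the power of 2 -/
noncomputable def lv (T : ℝ) : ℕ := Nat.log 2 ⌊T⌋₊ + 1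

theorem lv_spec {T : ℝ} (hT : 1 ≤ T) : T ≤ 2 ^ lv T ∧ (2 : ℝ) ^ lv T ≤ 2 * T := by
  have hT0 : 0 ≤ T := by linarith
  have h1 : ⌊T⌋₊ ≠ 0 := by
    have : 1 ≤ ⌊T⌋₊ := Nat.le_floor (by exact_mod_cast hT)
    omega
  have h2 := Nat.lt_pow_succ_log_self (b := 2) (by norm_num) ⌊T⌋₊
  have h3 := Nat.pow_log_le_self 2 h1
  constructor
  · have h4 := Nat.lt_floor_add_one T
    have h5 : ((⌊T⌋₊ : ℕ) : ℝ) + 1 ≤ 2 ^ lv T := by
      unfold lv
      exact_mod_cast h2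
    linarith
  · have h4 : ((2 ^ Nat.log 2 ⌊T⌋₊ : ℕ) : ℝ) ≤ ⌊T⌋₊ := by exact_mod_cast h3
    have h5 := Nat.floor_le hT0
    unfold lv
    rw [pow_succ]
    push_cast at h4
    linarith

theorem lv_tendsto : Tendsto lv atTop atTop := by
  rw [tendsto_atTop]
  intro b
  filter_upwards [eventually_ge_atTop ((2 : ℝ) ^ b)] with T hT
  have h1 : (1 : ℝ) ≤ T := (one_le_pow₀ (by norm_num)).trans hT
  exact (pow_le_pow_iff_right₀ (by norm_num : (1 : ℝ) < 2)).1 (hT.trans (lv_spec h1).1)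

theorem two_lv_tendsto : Tendsto (fun T : ℝ => (2 : ℝ) ^ lv T) atTop atTop :=
  (tendsto_pow_atTop_atTop_of_one_lt (by norm_num : (1 : ℝ) < 2)).comp lv_tendsto

/-- heights in extensions -/
theorem htLe_map {K M : Type} [Field K] [NumberField K] [Field M] [NumberField M] (f : K →+* M) {T : ℝ} {x : K}
    (hT : 0 ≤ T) (hx : Pool.Agent.Y120.HtLe K T x) : Pool.Agent.Y120.HtLe M T (f x) := by
  obtain ⟨a, b, hb, ha, hb', rfl⟩ := hx
  have hmap : ∀ c : 𝓞 K, ((RingOfIntegers.mapRingHom f c : 𝓞 M) : M) = f (c : K) := fun c => rfl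
  have hh : ∀ c : 𝓞 K, house (c : K) ≤ T → house ((RingOfIntegers.mapRingHom f c : 𝓞 M) : M) ≤ T := by
    intro c hc
    refine Pool.Agent.Y120.house_le M hT fun φ => ?_
    rw [hmap]
    exact (Pool.Agent.Y120.house_ge K (c : K) (φ.comp f)).trans hc
  refine ⟨RingOfIntegers.mapRingHom f a, RingOfIntegers.mapRingHom f b, ?_, hh a ha, hh b hb', ?_⟩
  · intro h0
    apply hb
    have h1 : f (b : K) = 0 := by
      rw [← hmap, h0]
      rfl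
    have h2 : (b : K) = 0 := (map_eq_zero f).1 h1
    exact_mod_cast h2
  · rw [hmap, hmap, map_div₀]

theorem nf_sup (K L : IntermediateField ℚ ℂ) [NumberField K] [NumberField L] : NumberField ↥(K ⊔ L) := by
  have h1 : FiniteDimensional ℚ ↥(K ⊔ L) := IntermediateField.finiteDimensional_sup K L
  exact { to_charZero := inferInstance, to_finiteDimensional := h1 }

theorem near_pair {X : Type} [Fintype X] [DecidableEq X] [Nonempty X] (U : Set (X → ℂ)) (hU : IsOpen U) (ω : ℝ → ℕ)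
    (hω : Tendsto ω atTop atTop) (Gen : IntermediateField ℚ ℂ → ℝ → (X → ℂ) → Prop)
    (hGen : ∀ (L M : IntermediateField ℚ ℂ) [NumberField L] [NumberField M] (T : ℝ) (x : X → ℂ), L ≤ M → Gen M T x →
      Gen L T x)
    (H : ∃ T₀ : ℝ, ∀ T, T₀ ≤ T → ∀ (K : IntermediateField ℚ ℂ) [NumberField K], Module.finrank ℚ K ≤ ω T →
      Cov ⌊T ^ ((ω T : ℝ)⁻¹)⌋₊ ⌊T ^ ((ω T : ℝ)⁻¹)⌋₊ ((fun (e : X → K) j => (e j : ℂ)) ''
        {e : X → K | (∀ j, Pool.Agent.Y120.HtLe K T (e j)) ∧ (fun j => (e j : ℂ)) ∈ InnerM U (ω T) ∧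
          ¬ Gen K T (fun j => (e j : ℂ))}))
    {σ : ℝ} (hσ : 0 < σ) :
    (∃ E : Set (X → ℂ), dimH E ≤ ENNReal.ofReal (Fintype.card X / σ) ∧ ∀ ξ ∈ U, ξ ∉ E →
      ∀ (K L : IntermediateField ℚ ℂ) [NumberField K] [NumberField L] (C : ℝ), ∀ᶠ T : ℝ in atTop,
        ∀ x ∈ Common (X := X) K T, (∀ j, ‖ξ j - (x j : ℂ)‖ ≤ C * T ^ (-(σ * Module.finrank ℚ K))) →
          Gen L (2 ^ lv T) (fun j => (x j : ℂ))) ∧
    (∃ E : Set (X → ℂ), dimH E ≤ ENNReal.ofReal (2 * ((Fintype.card X : ℝ) - 1) / σ) ∧ ∀ ξ ∈ U, ξ ∉ E →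
      ∀ (K L : IntermediateField ℚ ℂ) [NumberField K] [NumberField L] (C : ℝ), ∀ᶠ T : ℝ in atTop,
        ∀ x : X → K, (∀ j, Pool.Agent.Y120.HtLe K T (x j)) →
          (∀ j, ‖ξ j - (x j : ℂ)‖ ≤ C * T ^ (-(σ * Module.finrank ℚ K))) →
          Gen L (2 ^ lv T) (fun j => (x j : ℂ))) := by
  classical
  obtain ⟨T₀, H⟩ := H
  have hd : 1 ≤ Fintype.card X := Fintype.card_pos
  have hd' : (1 : ℝ) ≤ Fintype.card X := by exact_mod_cast hd
  have h2n : Tendsto (fun m : ℕ => (2 : ℝ) ^ m) atTop atTop := tendsto_pow_atTop_atTop_of_one_lt (by norm_num)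
  have hcf := Pool.Agent.N251.LF.countable_fields
  -- the hypersurfaces for pairs of fields
  have hcov : ∀ (K L : IntermediateField ℚ ℂ) [NumberField K] [NumberField L], ∀ᶠ m : ℕ in atTop,
      Cov ⌊((2 : ℝ) ^ m) ^ ((ω ((2 : ℝ) ^ m) : ℝ)⁻¹)⌋₊ ⌊((2 : ℝ) ^ m) ^ ((ω ((2 : ℝ) ^ m) : ℝ)⁻¹)⌋₊
        ((fun (e : X → K) j => (e j : ℂ)) '' {e : X → K | (∀ j, Pool.Agent.Y120.HtLe K (2 ^ m) (e j)) ∧
          (fun j => (e j : ℂ)) ∈ InnerM U (ω (2 ^ m)) ∧ ¬ Gen L (2 ^ m) (fun j => (e j : ℂ))}) := by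
    intro K L _ _
    have hM := nf_sup K L
    filter_upwards [(hω.comp h2n).eventually_ge_atTop (Module.finrank ℚ ↥(K ⊔ L)), h2n.eventually_ge_atTop T₀]
      with m hm2 hm3
    refine (H _ hm3 (K ⊔ L) hm2).mono le_rfl le_rfl ?_
    rintro _ ⟨e, ⟨h1, h2, h3⟩, rfl⟩
    let f : K →+* ↥(K ⊔ L) := (IntermediateField.inclusion (le_sup_left : K ≤ K ⊔ L)).toRingHom
    have hf : ∀ a : K, ((f a : ↥(K ⊔ L)) : ℂ) = (a : ℂ) := fun a => rfl
    refine ⟨fun j => f (e j), ⟨fun j => htLe_map f (by positivity) (h1 j), ?_, fun h4 => h3 ?_⟩, ?_⟩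
    · simp only [hf]
      exact h2
    · simp only [hf] at h4
      exact hGen L (K ⊔ L) _ _ le_sup_right h4
    · simp only [hf]
  -- from powers of two to all `T`
  have hall : ∀ (S : ∀ (K : IntermediateField ℚ ℂ) [NumberField K], ℝ → Set (X → K))
      (_ : ∀ (K : IntermediateField ℚ ℂ) [NumberField K] (T T' : ℝ), T ≤ T' → S K T ⊆ S K T')
      (ξ : X → ℂ) (K L : IntermediateField ℚ ℂ) [NumberField K],
      (∀ C : ℝ, ∀ᶠ m : ℕ in atTop, ∀ x ∈ S K (2 ^ m),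
        (∀ j, ‖ξ j - (x j : ℂ)‖ ≤ C * ((2 : ℝ) ^ m) ^ (-(σ * Module.finrank ℚ K))) → Gen L (2 ^ m) (fun j => (x j : ℂ))) →
      ∀ C : ℝ, ∀ᶠ T : ℝ in atTop, ∀ x ∈ S K T,
        (∀ j, ‖ξ j - (x j : ℂ)‖ ≤ C * T ^ (-(σ * Module.finrank ℚ K))) → Gen L (2 ^ lv T) (fun j => (x j : ℂ)) := by
    intro S hS ξ K L _ h C
    obtain ⟨κ, hκ⟩ : ∃ κ : ℝ, κ = σ * Module.finrank ℚ K := ⟨_, rfl⟩
    have hκ0 : 0 ≤ κ := by rw [hκ]; positivity
    filter_upwards [lv_tendsto.eventually (h (|C| * 2 ^ κ)), eventually_ge_atTop 1] with T hT hT1 x hx hclose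
    obtain ⟨h1, h2⟩ := lv_spec hT1
    have hT0 : 0 < T := by linarith
    rw [← hκ] at hT hclose
    refine hT x (hS K T _ h1 hx) fun j => (hclose j).trans ?_
    have h3 : T ^ (-κ) ≤ 2 ^ κ * ((2 : ℝ) ^ lv T) ^ (-κ) := by
      have h4 : ((2 : ℝ) * T) ^ (-κ) ≤ ((2 : ℝ) ^ lv T) ^ (-κ) :=
        Real.rpow_le_rpow_of_nonpos (by positivity) h2 (by linarith)
      rw [Real.mul_rpow (by norm_num) hT0.le, Real.rpow_neg (by norm_num : (0 : ℝ) ≤ 2)] at h4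
      have h5 : (0 : ℝ) < 2 ^ κ := by positivity
      rw [inv_mul_le_iff₀ h5] at h4
      exact h4
    calc C * T ^ (-κ) ≤ |C| * T ^ (-κ) := mul_le_mul_of_nonneg_right (le_abs_self C) (by positivity)
      _ ≤ |C| * (2 ^ κ * ((2 : ℝ) ^ lv T) ^ (-κ)) := mul_le_mul_of_nonneg_left h3 (abs_nonneg _)
      _ = _ := by ring
  -- the two kinds of points
  have step : ∀ (a : ℝ), 0 ≤ a → ∀ (S : ∀ (K : IntermediateField ℚ ℂ) [NumberField K], ℝ → Set (X → K))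
      (_ : ∀ (K : IntermediateField ℚ ℂ) [NumberField K] (T T' : ℝ), T ≤ T' → S K T ⊆ S K T')
      (_ : ∀ (K : IntermediateField ℚ ℂ) [NumberField K] (T : ℝ), ∀ x ∈ S K T, ∀ j, Pool.Agent.Y120.HtLe K T (x j))
      (_ : ∀ (K : IntermediateField ℚ ℂ) [NumberField K], ∃ C : ℝ, 0 ≤ C ∧ ∀ (T : ℝ) (M : ℕ) (E : Set (X → K)), 1 ≤ T →
        Cov M M ((fun (e : X → K) j => (e j : ℂ)) '' E) → E ⊆ S K T →
        E.Finite ∧ (E.ncard : ℝ) ≤ C * (M : ℝ) ^ 2 * T ^ (a * Module.finrank ℚ K)),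
      ∃ E : Set (X → ℂ), dimH E ≤ ENNReal.ofReal (a / σ) ∧ ∀ ξ ∈ U, ξ ∉ E →
        ∀ (K L : IntermediateField ℚ ℂ) [NumberField K] [NumberField L] (C : ℝ), ∀ᶠ T : ℝ in atTop, ∀ x ∈ S K T,
          (∀ j, ‖ξ j - (x j : ℂ)‖ ≤ C * T ^ (-(σ * Module.finrank ℚ K))) → Gen L (2 ^ lv T) (fun j => (x j : ℂ)) := by
    intro a ha S hS hSht hScount
    have h1 : ∀ L : {L : IntermediateField ℚ ℂ // FiniteDimensional ℚ L}, ∃ E : Set (X → ℂ),
        dimH E ≤ ENNReal.ofReal (a / σ) ∧ ∀ ξ ∈ U, ξ ∉ E →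
        ∀ (K : IntermediateField ℚ ℂ) [NumberField K] (C : ℝ), ∀ᶠ m : ℕ in atTop,
          ∀ x ∈ {x : X → K | ∀ _ : NumberField K, x ∈ S K ((2 : ℝ) ^ m)},
          (∀ j, ‖ξ j - (x j : ℂ)‖ ≤ C * ((2 : ℝ) ^ m) ^ (-(σ * Module.finrank ℚ K))) →
            Gen L.1 (2 ^ m) (fun j => (x j : ℂ)) := by
      rintro ⟨L, hL⟩
      have hNF : NumberField L := { to_charZero := inferInstance, to_finiteDimensional := hL }
      refine near_core U hU (fun m => ω (2 ^ m)) (hω.comp h2n) ha hσ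
        (fun K m => {x | ∀ _ : NumberField K, x ∈ S K ((2 : ℝ) ^ m)}) (fun K m x => Gen L (2 ^ m) x) ?_
      intro K _ ε hε
      obtain ⟨C, hC0, hC⟩ := hScount K
      refine ⟨C, ?_⟩
      filter_upwards [floor_sq hω hε, hcov K L] with m hm1 hm2
      have h2m : (1 : ℝ) ≤ 2 ^ m := one_le_pow₀ (by norm_num)
      obtain ⟨h3, h4⟩ := hC ((2 : ℝ) ^ m) _ {e : X → K | e ∈ {x | ∀ _ : NumberField K, x ∈ S K ((2 : ℝ) ^ m)} ∧
        (fun j => (e j : ℂ)) ∈ InnerM U (ω (2 ^ m)) ∧ ¬ Gen L (2 ^ m) fun j => (e j : ℂ)} h2m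
        (hm2.mono le_rfl le_rfl (Set.image_mono (by
          rintro e ⟨h5, h6, h7⟩
          exact ⟨hSht K _ e (h5 inferInstance), h6, h7⟩)))
        (fun e he => he.1 inferInstance)
      refine ⟨h3, h4.trans ?_⟩
      rw [Real.rpow_add (by positivity)]
      calc C * ((⌊((2 : ℝ) ^ m) ^ ((ω ((2 : ℝ) ^ m) : ℝ)⁻¹)⌋₊ : ℕ) : ℝ) ^ 2 * ((2 : ℝ) ^ m) ^ (a * (Module.finrank ℚ K : ℝ)) ≤
            C * ((2 : ℝ) ^ m) ^ ε * ((2 : ℝ) ^ m) ^ (a * (Module.finrank ℚ K : ℝ)) := by gcongr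
        _ = _ := by ring
    choose E hE hE' using h1
    refine ⟨⋃ L, E L, ?_, fun ξ hξ hξE K L _ _ C => ?_⟩
    · rw [dimH_iUnion]
      exact iSup_le hE
    · have hfd : FiniteDimensional ℚ L := inferInstance
      have hξL : ξ ∉ E ⟨L, hfd⟩ := fun h => hξE (Set.mem_iUnion.2 ⟨_, h⟩)
      refine hall S hS ξ K L (fun C => ?_) C
      filter_upwards [hE' ⟨L, hfd⟩ ξ hξ hξL K C] with m hm x hx hclose
      exact hm x (fun _ => hx) hclose
  refine ⟨?_, ?_⟩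
  · refine step (Fintype.card X) (by linarith) (fun K _ T => Common K T) ?_ (fun K _ T x hx j => common_ht hx j) ?_
    · rintro K _ T T' hTT x ⟨q, p, hq, hqT, hp⟩
      exact ⟨q, p, hq, hqT.trans hTT, fun j => ⟨(hp j).1.trans hTT, (hp j).2⟩⟩
    · intro K _
      exact count_common K (algebraMap K ℂ)
  · refine step (2 * ((Fintype.card X : ℝ) - 1)) (by linarith) (fun K _ T => {x | ∀ j, Pool.Agent.Y120.HtLe K T (x j)})
      ?_ (fun K _ T x hx => hx) ?_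
    · rintro K _ T T' hTT x hx j
      obtain ⟨a, b, hb, ha, hb', he⟩ := hx j
      exact ⟨a, b, hb, ha.trans hTT, hb'.trans hTT, he⟩
    · intro K _
      exact count_ht K (algebraMap K ℂ)

/-- the set of the exceptional points -/
theorem ae_of_dim {X : Type} [Fintype X] [Nonempty X] {U E : Set (X → ℂ)} {P : (X → ℂ) → Prop} {s : ℝ} (hs0 : 0 ≤ s)
    (hE : dimH E ≤ ENNReal.ofReal s) (h : ∀ ξ ∈ U, ξ ∉ E → P ξ) :
    dimH {ξ | ξ ∈ U ∧ ¬ P ξ} ≤ ENNReal.ofReal s ∧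
    (s < 2 * Fintype.card X → ∀ᵐ ξ : X → ℂ, ξ ∈ U → P ξ) ∧
    (s < Fintype.card X → ∀ᵐ ξ : X → ℝ, (fun j => (ξ j : ℂ)) ∈ U → P fun j => (ξ j : ℂ)) := by
  refine ⟨le_trans (dimH_mono ?_) hE, fun h1 => ?_, fun h1 => ?_⟩
  · rintro ξ ⟨h2, h3⟩
    by_contra h4
    exact h3 (h ξ h2 h4)
  · have h2 := null_complex hE hs0 h1
    filter_upwards [compl_mem_ae_iff.2 h2] with ξ hξ hU
    exact h ξ hU hξ
  · have h2 := Pool.Agent.N251.LF.null_of_dim ((dim_real E).trans hE) h1 Fintype.card_pos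
    filter_upwards [compl_mem_ae_iff.2 h2] with ξ hξ hU
    exact h _ hU hξ

end Pool.Agent.D0H63.MR
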