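import Pool.Agent.N84.MD.C

set_option autoImplicit false

/-! Hausdorff and Cantelli for dyadic levels in a metric space; null sets of complex vectors. -/

namespace Pool.Agent.D0H63.MR

open Filter Set MeasureTheory
open scoped ENNReal

/-- If there are at most `C (2 ^ n) ^ (s + ε)` centres of level `n`, then the points within `C (2 ^ n) ^ (-τ)` of a centre of level
`n` for infinitely many `n` form a set of dimension at most `s / τ`. -/
theorem levels {Y : Type*} [MetricSpace Y] (F : ℕ → Set Y) {s τ : ℝ} (hs : 0 ≤ s) (hτ : 0 < τ)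
    (hF : ∀ ε : ℝ, 0 < ε → ∃ C : ℝ, ∀ᶠ n : ℕ in atTop, (F n).Finite ∧ ((F n).ncard : ℝ) ≤ C * ((2 : ℝ) ^ n) ^ (s + ε)) :
    dimH {y : Y | ¬ ∀ C : ℝ, ∀ᶠ n : ℕ in atTop, ∀ x ∈ F n, ¬ dist y x ≤ C * ((2 : ℝ) ^ n) ^ (-τ)} ≤
      ENNReal.ofReal (s / τ) := by
  classical
  refine Pool.Agent.N84.MD.dim_le_of_forall (div_nonneg hs hτ.le) fun D hD => ?_
  have hD0 : 0 < D := lt_of_le_of_lt (div_nonneg hs hτ.le) hD
  have hsD : s < D * τ := by rwa [div_lt_iff₀ hτ] at hD
  obtain ⟨C, hC⟩ := hF ((D * τ - s) / 2) (by linarith)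
  obtain ⟨n₀, hn₀⟩ := eventually_atTop.1 hC
  have hsub : {y : Y | ¬ ∀ C : ℝ, ∀ᶠ n : ℕ in atTop, ∀ x ∈ F n, ¬ dist y x ≤ C * ((2 : ℝ) ^ n) ^ (-τ)} ⊆
      ⋃ κ : ℕ, {y : Y | ∃ᶠ n : ℕ in atTop, ∃ x ∈ (if h : (F n).Finite then h.toFinset else ∅),
        y ∈ Metric.closedBall x (κ * ((2 : ℝ) ^ n) ^ (-τ))} := by
    intro y hy
    rw [Set.mem_ofPred_eq, not_forall] at hy
    obtain ⟨c, hc⟩ := hy
    obtain ⟨κ, hκ⟩ := exists_nat_ge c
    rw [Set.mem_iUnion]
    refine ⟨κ, ?_⟩
    rw [Filter.not_eventually] at hc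
    refine (hc.and_eventually (eventually_ge_atTop n₀)).mono ?_
    rintro n ⟨hn1, hn2⟩
    push Not at hn1
    obtain ⟨x, hx1, hx2⟩ := hn1
    refine ⟨x, ?_, ?_⟩
    · rw [dif_pos (hn₀ n hn2).1, Set.Finite.mem_toFinset]
      exact hx1
    · rw [Metric.mem_closedBall]
      refine hx2.trans (mul_le_mul_of_nonneg_right hκ (by positivity))
  refine le_trans (dimH_mono hsub) ?_
  rw [dimH_iUnion]
  refine iSup_le fun κ => ?_
  have hc := Pool.Agent.N84.MD.core (X := Y) (fun (n : ℕ) (x : Y) => Metric.closedBall x (κ * ((2 : ℝ) ^ n) ^ (-τ))) D hD0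
    (fun n => if h : (F n).Finite then h.toFinset else ∅) (fun n => 2 * (κ * ((2 : ℝ) ^ n) ^ (-τ)))
    (fun n => by positivity)
    (fun n x _ => by
      refine Metric.ediam_le fun y hy y' hy' => ?_
      rw [edist_dist]
      refine ENNReal.ofReal_le_ofReal ?_
      rw [Metric.mem_closedBall] at hy hy'
      have h1 := dist_triangle_right y y' x
      linarith)
    (by
      have hsum := (Pool.Agent.N84.MD.summable_terms (β := 2) (s := s + (D * τ - s) / 2) (κ := 1 - τ) (D := D)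
        (K := |C|) (C := 2 * κ) (by norm_num) (by positivity) (by linarith))
      rw [← summable_nat_add_iff n₀] at hsum ⊢
      refine Summable.of_nonneg_of_le (fun n => by positivity) (fun n => ?_) hsum
      obtain ⟨h1, h2⟩ := hn₀ (n + n₀) (by omega)
      rw [dif_pos h1]
      have e1 : 2 * ((κ : ℝ) * ((2 : ℝ) ^ (n + n₀)) ^ (-τ)) = 2 * (κ : ℝ) * (2 ^ (n + n₀)) ^ (1 - τ - 1) := by
        rw [show 1 - τ - 1 = -τ by ring]
        ring
      rw [e1]
      apply mul_le_mul_of_nonneg_right _ (by positivity)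
      rw [Set.ncard_eq_toFinset_card _ h1] at h2
      exact h2.trans (mul_le_mul_of_nonneg_right (le_abs_self C) (by positivity)))
  exact hc

/-- sets of complex vectors of small dimension are null sets -/
theorem null_complex {X : Type*} [Fintype X] {E : Set (X → ℂ)} {s : ℝ} (h : dimH E ≤ ENNReal.ofReal s) (hs0 : 0 ≤ s)
    (hs : s < 2 * Fintype.card X) : volume E = 0 := by
  have hfr : Module.finrank ℝ (X → ℂ) = 2 * Fintype.card X := by
    rw [Module.finrank_pi_fintype]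
    simp [Complex.finrank_real_complex]
    ring
  have h1 := MeasureTheory.isAddHaarMeasure_hausdorffMeasure (E := X → ℂ)
  have hac : (volume : Measure (X → ℂ)) ≪ Measure.hausdorffMeasure (Module.finrank ℝ (X → ℂ)) :=
    Measure.absolutelyContinuous_isAddHaarMeasure _ _
  have h2 : dimH E < (((Module.finrank ℝ (X → ℂ) : ℕ) : NNReal) : ENNReal) := by
    refine h.trans_lt ?_
    rw [hfr]
    have hc : (0 : ℝ) < 2 * Fintype.card X := lt_of_le_of_lt hs0 hs
    have h3 := (ENNReal.ofReal_lt_ofReal_iff hc).2 hs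
    have h4 : ENNReal.ofReal (2 * (Fintype.card X : ℝ)) = (((2 * Fintype.card X : ℕ) : NNReal) : ENNReal) := by
      rw [show (2 * (Fintype.card X : ℝ)) = ((2 * Fintype.card X : ℕ) : ℝ) by push_cast; ring, ENNReal.ofReal_natCast]
      rfl
    rwa [h4] at h3
  exact measure_zero_of_dimH_lt (by exact_mod_cast hac) h2

/-- the real points of a set of complex vectors -/
theorem dim_real {X : Type*} [Fintype X] (E : Set (X → ℂ)) :
    dimH {ξ : X → ℝ | (fun j => (ξ j : ℂ)) ∈ E} ≤ dimH E := by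
  have hiso : Isometry (fun (ξ : X → ℝ) (j : X) => (ξ j : ℂ)) := by
    refine Isometry.of_dist_eq fun x y => ?_
    rw [dist_pi_def, dist_pi_def]
    congr 1
    refine Finset.sup_congr rfl fun j _ => ?_
    ext
    simp [nndist_dist, Complex.dist_eq, Real.dist_eq, ← Complex.ofReal_sub, Complex.norm_real]
  rw [← hiso.dimH_image]
  refine dimH_mono ?_
  rintro _ ⟨ξ, hξ, rfl⟩
  exact hξ

end Pool.Agent.D0H63.MR
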