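import Pool.Agent.D0H63.MR.Forms

set_option autoImplicit false

/-! Odd denominators of good rational approximations; sets of small dimension are null sets. -/

namespace Pool.Agent.D0H63.MR

open Filter Set MeasureTheory
open scoped ENNReal

/-- a set of dimension less than the dimension of the space is a null set -/
theorem null_of_dim {ι : Type*} [Fintype ι] {E : Set (ι → ℝ)} {s : ℝ} (h : dimH E ≤ ENNReal.ofReal s) (hs0 : 0 ≤ s)
    (hs : s < Fintype.card ι) : volume E = 0 := by
  have hv : (volume : Measure (ι → ℝ)) = Measure.hausdorffMeasure (((Fintype.card ι : NNReal)) : ℝ) := by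
    have := (hausdorffMeasure_pi_real (ι := ι))
    rw [← this]
    norm_num
  rw [hv]
  apply measure_zero_of_dimH_lt (Measure.AbsolutelyContinuous.rfl)
  refine lt_of_le_of_lt h ?_
  rw [ENNReal.ofReal_lt_coe_iff hs0]
  simpa using hs

/-- rational approximations with large denominators -/
theorem exists_den {ξ : ℝ} (hξ : Irrational ξ) (B : ℕ) : ∃ x : ℚ, B < x.den ∧ |ξ - x| < 1 / (x.den : ℝ) ^ 2 := by
  have hinf := Real.infinite_rat_abs_sub_lt_one_div_den_sq_of_irrational hξ
  have hfin : {x : ℚ | |ξ - x| < 1 / (x.den : ℝ) ^ 2 ∧ x.den ≤ B}.Finite := by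
    obtain ⟨R, hR⟩ := exists_nat_ge ((|ξ| + 1) * (B + 1))
    refine Set.Finite.of_injOn (f := fun x : ℚ => (x.num, x.den)) (t := Set.Icc (-(R : ℤ)) R ×ˢ Set.Iic B) ?_ ?_
      ((Set.finite_Icc _ _).prod (Set.finite_Iic _))
    · rintro x ⟨h1, h2⟩
      have hd : (1 : ℝ) ≤ x.den := by exact_mod_cast x.pos
      have h3 : 1 / (x.den : ℝ) ^ 2 ≤ 1 := by
        rw [div_le_one (by positivity)]
        nlinarith
      have h4 : |(x : ℝ)| ≤ |ξ| + 1 := by
        have h6 := abs_lt.1 (h1.trans_le h3)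
        have h7 := abs_le.1 (le_refl |ξ|)
        rw [abs_le]
        constructor <;> linarith [h6.1, h6.2, h7.1, h7.2]
      have h5 : (x : ℝ) = x.num / x.den := by
        exact_mod_cast (Rat.num_div_den x).symm
      have h6 : |(x.num : ℝ)| ≤ R := by
        have h7 : (x.num : ℝ) = x * x.den := by rw [h5]; field_simp
        rw [h7, abs_mul, abs_of_pos (by linarith : (0 : ℝ) < x.den)]
        refine le_trans ?_ hR
        have h8 : (x.den : ℝ) ≤ B + 1 := by
          have : (x.den : ℝ) ≤ B := by exact_mod_cast h2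
          linarith
        exact mul_le_mul h4 h8 (by positivity) (by positivity)
      refine ⟨?_, h2⟩
      have h9 := abs_le.1 h6
      exact ⟨by exact_mod_cast h9.1, by exact_mod_cast h9.2⟩
    · intro x _ y _ hxy
      simp only [Prod.mk.injEq] at hxy
      exact Rat.ext hxy.1 hxy.2
  obtain ⟨x, hx1, hx2⟩ := hinf.exists_notMem_finite hfin
  refine ⟨x, ?_, hx1⟩
  by_contra hcon
  exact hx2 ⟨hx1, not_lt.1 hcon⟩

/-- There are large odd `s` with `‖s ξ‖ ≤ 6 / s`. -/
theorem exists_odd_den {ξ : ℝ} (hξ : Irrational ξ) (B : ℕ) : ∃ s : ℕ, B ≤ s ∧ Odd s ∧ 1 ≤ s ∧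
    ∃ p : ℤ, |(s : ℝ) * ξ - p| ≤ 6 / s := by
  obtain ⟨x, hx1, hx2⟩ := exists_den hξ (B + 1)
  have hd1 : (1 : ℝ) ≤ x.den := by exact_mod_cast x.pos
  have h5 : (x : ℝ) = x.num / x.den := by
    exact_mod_cast (Rat.num_div_den x).symm
  rcases Nat.even_or_odd x.den with hev | hodd
  · -- the denominator is even
    have hcop : IsCoprime (x.num : ℤ) (x.den : ℤ) := by
      have h1 : Nat.Coprime x.num.natAbs (x.den : ℤ).natAbs := by simpa using x.reduced
      exact Int.isCoprime_iff_gcd_eq_one.2 h1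
    obtain ⟨u, v, huv⟩ := hcop
    -- `u * num + v * den = 1`
    obtain ⟨w, hw⟩ : ∃ w : ℤ, w = u % x.den := ⟨_, rfl⟩
    have hden0 : (0 : ℤ) < x.den := by exact_mod_cast x.pos
    have hw0 : 0 ≤ w := by rw [hw]; exact Int.emod_nonneg _ hden0.ne'
    have hw1 : w < x.den := by rw [hw]; exact Int.emod_lt_of_pos _ hden0
    obtain ⟨c, hc⟩ : ∃ c : ℤ, c = u / x.den := ⟨_, rfl⟩
    have hu : u = w + x.den * c := by
      rw [hw, hc]
      exact (Int.emod_add_mul_ediv u x.den).symm
    obtain ⟨P, hP⟩ : ∃ P : ℤ, P = -(v + c * x.num) := ⟨_, rfl⟩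
    have hrel : w * x.num - P * x.den = 1 := by
      rw [hP]
      rw [hu] at huv
      linarith
    obtain ⟨n, hn⟩ := Int.eq_ofNat_of_zero_le hw0
    have hwodd : Odd n := by
      by_contra hcon
      rw [Nat.not_odd_iff_even] at hcon
      have h2 : (2 : ℤ) ∣ w := by
        rw [hn]
        exact_mod_cast hcon.two_dvd
      have h3 : (2 : ℤ) ∣ (x.den : ℤ) := by exact_mod_cast hev.two_dvd
      have h4 : (2 : ℤ) ∣ 1 := by
        rw [← hrel]
        exact dvd_sub (h2.mul_right _) (h3.mul_left _)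
      norm_num at h4
    refine ⟨n + x.den, by omega, hwodd.add_even hev, by omega, P + x.num, ?_⟩
    have hnd : (n : ℝ) < x.den := by
      have : (n : ℤ) < x.den := by rw [← hn]; exact hw1
      exact_mod_cast this
    have hn0 : (0 : ℝ) ≤ n := Nat.cast_nonneg n
    have hrel' : (n : ℝ) * x.num - P * x.den = 1 := by
      rw [hn] at hrel
      exact_mod_cast hrel
    have hd0 : (0 : ℝ) < x.den := by linarith
    have heq : ((n + x.den : ℕ) : ℝ) * ξ - ((P + x.num : ℤ) : ℝ) =
        ((n : ℝ) + x.den) * (ξ - x) + 1 / x.den := by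
      rw [h5]
      push_cast
      field_simp
      linear_combination (1 : ℝ) * hrel'
    rw [heq]
    have h6 : |((n : ℝ) + x.den) * (ξ - x)| ≤ 2 / x.den := by
      rw [abs_mul, abs_of_pos (by linarith : (0 : ℝ) < (n : ℝ) + x.den)]
      calc ((n : ℝ) + x.den) * |ξ - x| ≤ (2 * x.den) * (1 / (x.den : ℝ) ^ 2) :=
            mul_le_mul (by linarith) hx2.le (abs_nonneg _) (by positivity)
        _ = 2 / x.den := by field_simp
    have h7 : |(1 : ℝ) / x.den| = 1 / x.den := abs_of_pos (by positivity)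
    calc |((n : ℝ) + x.den) * (ξ - x) + 1 / x.den| ≤ |((n : ℝ) + x.den) * (ξ - x)| + |(1 : ℝ) / x.den| :=
          abs_add_le _ _
      _ ≤ 2 / x.den + 1 / x.den := by rw [h7]; linarith
      _ = 6 / (2 * x.den) := by field_simp; norm_num
      _ ≤ 6 / ((n + x.den : ℕ) : ℝ) := by
          apply div_le_div_of_nonneg_left (by norm_num)
          · push_cast
            linarith
          · push_cast
            linarith
  · refine ⟨x.den, by omega, hodd, x.pos, x.num, ?_⟩
    have hd0 : (0 : ℝ) < x.den := by linarith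
    have heq : (x.den : ℝ) * ξ - x.num = x.den * (ξ - x) := by
      rw [h5]
      field_simp
    rw [heq, abs_mul, abs_of_pos hd0]
    calc (x.den : ℝ) * |ξ - x| ≤ x.den * (1 / (x.den : ℝ) ^ 2) := mul_le_mul_of_nonneg_left hx2.le hd0.le
      _ = 1 / x.den := by field_simp
      _ ≤ 6 / x.den := by
        apply div_le_div_of_nonneg_right _ hd0.le
        norm_num

/-- almost all matrices with one row and one column have an irrational entry -/
theorem ae_irrational' : ∀ᵐ α : Fin 1 × Fin 1 → ℝ, Irrational (α (0, 0)) := by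
  have h1 : (Set.range ((↑) : ℚ → ℝ)).Countable := Set.countable_range _
  have h2 : {α : Fin 1 × Fin 1 → ℝ | ¬ Irrational (α (0, 0))} =
      (fun x : ℝ => fun _ : Fin 1 × Fin 1 => x) '' (Set.range ((↑) : ℚ → ℝ)) := by
    ext α
    simp only [Irrational, Set.mem_setOf_eq, not_not, Set.mem_image]
    constructor
    · intro h
      refine ⟨α (0, 0), h, ?_⟩
      funext j
      rw [Subsingleton.elim j (0, 0)]
    · rintro ⟨x, hx, rfl⟩
      exact hx
  rw [ae_iff, h2]
  exact (h1.image _).measure_zero _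

end Pool.Agent.D0H63.MR
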