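import Pool.Agent.D0H63.MR.Few

set_option autoImplicit false

/-! One exceptional set for countably many properties and all constants. -/

namespace Pool.Agent.D0H63.MR

open Filter Set MeasureTheory
open scoped ENNReal

/-- countably many properties -/
theorem of_few_all {k : ℕ} {ι : Type} [Countable ι] {E : ι → ℝ → (Fin (k + 1) → ℕ) → Prop}
    (hE : ∀ i H H' s, H ≤ H' → E i H s → E i H' s)
    (h : ∀ i, ∀ κ : ℕ, ∃ K : ℕ, ∀ C : ℝ, ∃ N₀ : ℕ, ∀ N : ℕ, N₀ ≤ N →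
      {s : Fin (k + 1) → ℕ | (∀ j, N ≤ s j ∧ s j ≤ κ * N) ∧ E i (C ^ N) s}.ncard ≤ K * N ^ (k + 1 - 1)) (τ : ℝ)
    (hτ : 0 < τ) :
    dimH {ξ : Fin k → ℝ | (∀ j, 0 < ξ j) ∧ ¬ ∀ (i : ι) (C : ℝ), ∀ᶠ q : ℕ in atTop, ∀ t : Fin (k + 1) → ℕ, t 0 = q →
      (∀ j : Fin k, |ξ j - t j.succ / q| ≤ (q : ℝ) ^ (-τ)) → ¬ E i (C ^ q) t} ≤ ENNReal.ofReal (k / τ) ∧
    (1 ≤ k → 1 < τ → ∀ᵐ ξ : Fin k → ℝ, (∀ j, 0 < ξ j) → ∀ (i : ι) (C : ℝ), ∀ᶠ q : ℕ in atTop,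
      ∀ t : Fin (k + 1) → ℕ, t 0 = q →
      (∀ j : Fin k, |ξ j - t j.succ / q| ≤ (q : ℝ) ^ (-τ)) → ¬ E i (C ^ q) t) := by
  have hred : ∀ ξ : Fin k → ℝ, (∀ (i : ι) (n : ℕ), ∀ᶠ q : ℕ in atTop, ∀ t : Fin (k + 1) → ℕ, t 0 = q →
      (∀ j : Fin k, |ξ j - t j.succ / q| ≤ (q : ℝ) ^ (-τ)) → ¬ E i ((n : ℝ) ^ q) t) →
      ∀ (i : ι) (C : ℝ), ∀ᶠ q : ℕ in atTop, ∀ t : Fin (k + 1) → ℕ, t 0 = q →
      (∀ j : Fin k, |ξ j - t j.succ / q| ≤ (q : ℝ) ^ (-τ)) → ¬ E i (C ^ q) t := by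
    intro ξ h1 i C
    obtain ⟨n, hn⟩ := exists_nat_ge |C|
    filter_upwards [h1 i n] with q hq t ht0 htn hb
    refine hq t ht0 htn (hE i _ _ t ?_ hb)
    calc C ^ q ≤ |C ^ q| := le_abs_self _
      _ = |C| ^ q := abs_pow C q
      _ ≤ (n : ℝ) ^ q := pow_le_pow_left₀ (abs_nonneg C) hn q
  refine ⟨?_, fun hk1 hτ1 => ?_⟩
  · have hsub : {ξ : Fin k → ℝ | (∀ j, 0 < ξ j) ∧ ¬ ∀ (i : ι) (C : ℝ), ∀ᶠ q : ℕ in atTop,
        ∀ t : Fin (k + 1) → ℕ, t 0 = q →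
        (∀ j : Fin k, |ξ j - t j.succ / q| ≤ (q : ℝ) ^ (-τ)) → ¬ E i (C ^ q) t} ⊆
        ⋃ i : ι, ⋃ n : ℕ, {ξ : Fin k → ℝ | (∀ j, 0 < ξ j) ∧ ¬ ∀ᶠ q : ℕ in atTop,
        ∀ t : Fin (k + 1) → ℕ, t 0 = q →
        (∀ j : Fin k, |ξ j - t j.succ / q| ≤ (q : ℝ) ^ (-τ)) → ¬ E i ((n : ℝ) ^ q) t} := by
      rintro ξ ⟨h1, h2⟩
      rw [Set.mem_iUnion]
      by_contra hcon
      refine h2 (hred ξ fun i n => ?_)
      by_contra h3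
      exact hcon ⟨i, Set.mem_iUnion.2 ⟨n, h1, h3⟩⟩
    refine le_trans (dimH_mono hsub) ?_
    rw [dimH_iUnion]
    refine iSup_le fun i => ?_
    rw [dimH_iUnion]
    exact iSup_le fun n => (of_few (hE i) (h i) n τ hτ).1
  · have h1 : ∀ (i : ι) (n : ℕ), ∀ᵐ ξ : Fin k → ℝ, (∀ j, 0 < ξ j) → ∀ᶠ q : ℕ in atTop,
        ∀ t : Fin (k + 1) → ℕ, t 0 = q →
        (∀ j : Fin k, |ξ j - t j.succ / q| ≤ (q : ℝ) ^ (-τ)) → ¬ E i ((n : ℝ) ^ q) t :=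
      fun i n => (of_few (hE i) (h i) n τ hτ).2 hk1 hτ1
    have h2 := ae_all_iff.2 fun i => ae_all_iff.2 fun n => h1 i n
    filter_upwards [h2] with ξ hξ hpos
    exact hred ξ fun i n => hξ i n hpos

/-- almost all real numbers are irrational -/
theorem ae_irrational : ∀ᵐ ξ : Fin 1 → ℝ, Irrational (ξ 0) := by
  have h1 : (Set.range ((↑) : ℚ → ℝ)).Countable := Set.countable_range _
  have h2 : {ξ : Fin 1 → ℝ | ¬ Irrational (ξ 0)} = (fun x : ℝ => fun _ : Fin 1 => x) '' (Set.range ((↑) : ℚ → ℝ)) := by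
    ext ξ
    simp only [Irrational, Set.mem_setOf_eq, not_not, Set.mem_image]
    constructor
    · intro h
      refine ⟨ξ 0, h, ?_⟩
      funext j
      rw [Subsingleton.elim j 0]
    · rintro ⟨x, hx, rfl⟩
      exact hx
  rw [ae_iff, h2]
  exact (h1.image _).measure_zero _

/-- the vectors with a positive coordinate have positive measure -/
theorem frequently_pos : ∃ᵐ ξ : Fin 1 → ℝ, ∀ j, 0 < ξ j := by
  rw [frequently_ae_iff]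
  have hopen : IsOpen {ξ : Fin 1 → ℝ | ∀ j, 0 < ξ j} := by
    simp only [Set.setOf_forall]
    exact isOpen_iInter_of_finite fun j => isOpen_lt continuous_const (continuous_apply j)
  exact (hopen.measure_pos volume ⟨fun _ => 1, fun _ => one_pos⟩).ne'

/-- good approximations with large odd numerator or denominator -/
theorem exists_odd {ξ : ℝ} (hξ : Irrational ξ) (h0 : 0 < ξ) (B : ℕ) : ∃ p q : ℕ, B ≤ q ∧ B ≤ p ∧ 1 ≤ q ∧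
    p.Coprime q ∧ |ξ - p / q| < 1 / (q : ℝ) ^ 2 ∧ (Odd q ∨ Odd p) := by
  obtain ⟨p, q, h1, h2, h3, h4, h5⟩ := exists_conv hξ h0 B
  refine ⟨p, q, h1, h2, h3, h4, h5, ?_⟩
  by_contra hcon
  rw [not_or, Nat.not_odd_iff_even, Nat.not_odd_iff_even] at hcon
  have h6 := Nat.dvd_gcd hcon.2.two_dvd hcon.1.two_dvd
  rw [h4] at h6
  omega

theorem rpow_of_sq {q : ℕ} (hq : 1 ≤ q) : 1 / (q : ℝ) ^ 2 ≤ (q : ℝ) ^ (-(3 / 2 : ℝ)) := by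
  have h1 : (1 : ℝ) ≤ q := by exact_mod_cast hq
  rw [one_div, ← Real.rpow_natCast, ← Real.rpow_neg (by linarith)]
  exact Real.rpow_le_rpow_of_exponent_le h1 (by norm_num)

end Pool.Agent.D0H63.MR
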