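import Pool.Agent.D0H63.MR.Rat

set_option autoImplicit false

/-! From `K N ^ k` bad tuples in the boxes `[N, κ N] ^ (k + 1)` to good rational approximations of real vectors. -/

namespace Pool.Agent.D0H63.MR

open Filter Set MeasureTheory
open scoped ENNReal

theorem bad_count {k : ℕ} {E : ℝ → (Fin (k + 1) → ℕ) → Prop} (hE : ∀ H H' s, H ≤ H' → E H s → E H' s)
    (h : ∀ κ : ℕ, ∃ K : ℕ, ∀ C : ℝ, ∃ N₀ : ℕ, ∀ N : ℕ, N₀ ≤ N →
      {s : Fin (k + 1) → ℕ | (∀ j, N ≤ s j ∧ s j ≤ κ * N) ∧ E (C ^ N) s}.ncard ≤ K * N ^ (k + 1 - 1)) (C : ℝ)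
    (κ : ℕ) (hκ : 1 ≤ κ) : ∃ (C' : ℝ) (N₀ : ℕ), ∀ N : ℕ, N₀ ≤ N →
      ({s : Fin (k + 1) → ℕ | (∀ j, N ≤ κ * s j ∧ s j ≤ κ * N) ∧ s ∈ {s | E ((max |C| 1) ^ N) s}}.ncard : ℝ) ≤
        C' * (N : ℝ) ^ (k : ℝ) := by
  obtain ⟨K, hK⟩ := h (2 * κ ^ 2)
  obtain ⟨N₀, hN₀⟩ := hK ((max |C| 1) ^ (2 * κ))
  refine ⟨K, κ * (N₀ + 1), fun N hN => ?_⟩
  obtain ⟨N', hN'⟩ : ∃ N', N' = N / κ := ⟨_, rfl⟩
  have h1 : N₀ + 1 ≤ N' := by
    rw [hN', Nat.le_div_iff_mul_le (by omega), mul_comm]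
    exact hN
  have h2 : κ * N' ≤ N := by
    rw [hN']
    exact Nat.mul_div_le N κ
  have h3 : N ≤ 2 * κ * N' := by
    have h4 : N < κ * (N' + 1) := by
      rw [hN']
      have := Nat.div_add_mod N κ
      have := Nat.mod_lt N (show 0 < κ by omega)
      nlinarith
    nlinarith
  have hsub : {s : Fin (k + 1) → ℕ | (∀ j, N ≤ κ * s j ∧ s j ≤ κ * N) ∧ s ∈ {s | E ((max |C| 1) ^ N) s}} ⊆
      {s : Fin (k + 1) → ℕ | (∀ j, N' ≤ s j ∧ s j ≤ (2 * κ ^ 2) * N') ∧ E (((max |C| 1) ^ (2 * κ)) ^ N') s} := by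
    rintro s ⟨hs1, hs2⟩
    refine ⟨fun j => ⟨?_, ?_⟩, hE _ _ s ?_ hs2⟩
    · have := (hs1 j).1
      exact Nat.le_of_mul_le_mul_left (h2.trans this) (by omega)
    · refine (hs1 j).2.trans ?_
      calc κ * N ≤ κ * (2 * κ * N') := Nat.mul_le_mul_left κ h3
        _ = 2 * κ ^ 2 * N' := by ring
    · have h5 : (1 : ℝ) ≤ max |C| 1 := le_max_right _ _
      calc (max |C| 1) ^ N ≤ (max |C| 1) ^ (2 * κ * N') := pow_le_pow_right₀ h5 h3
        _ = _ := pow_mul _ _ _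
  have hfin : {s : Fin (k + 1) → ℕ | (∀ j, N' ≤ s j ∧ s j ≤ (2 * κ ^ 2) * N') ∧
      E (((max |C| 1) ^ (2 * κ)) ^ N') s}.Finite := by
    refine (Set.Finite.pi (fun _ : Fin (k + 1) => Set.finite_Iic (2 * κ ^ 2 * N'))).subset ?_
    intro s hs j _
    exact (hs.1 j).2
  have h6 := (Set.ncard_le_ncard hsub hfin).trans (hN₀ N' (by omega))
  have h7 : N' ≤ N := by
    rw [hN']
    exact Nat.div_le_self N κ
  rw [Nat.add_sub_cancel] at h6
  have h8 : {s : Fin (k + 1) → ℕ | (∀ j, N ≤ κ * s j ∧ s j ≤ κ * N) ∧ s ∈ {s | E ((max |C| 1) ^ N) s}}.ncard ≤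
      K * N ^ k := h6.trans (Nat.mul_le_mul_left K (Nat.pow_le_pow_left h7 _))
  rw [Real.rpow_natCast]
  exact_mod_cast h8

/-- rational approximations -/
theorem of_few {k : ℕ} {E : ℝ → (Fin (k + 1) → ℕ) → Prop} (hE : ∀ H H' s, H ≤ H' → E H s → E H' s)
    (h : ∀ κ : ℕ, ∃ K : ℕ, ∀ C : ℝ, ∃ N₀ : ℕ, ∀ N : ℕ, N₀ ≤ N →
      {s : Fin (k + 1) → ℕ | (∀ j, N ≤ s j ∧ s j ≤ κ * N) ∧ E (C ^ N) s}.ncard ≤ K * N ^ (k + 1 - 1)) (C τ : ℝ)
    (hτ : 0 < τ) :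
    dimH {ξ : Fin k → ℝ | (∀ j, 0 < ξ j) ∧ ¬ ∀ᶠ q : ℕ in atTop, ∀ t : Fin (k + 1) → ℕ, t 0 = q →
      (∀ j : Fin k, |ξ j - t j.succ / q| ≤ (q : ℝ) ^ (-τ)) → ¬ E (C ^ q) t} ≤ ENNReal.ofReal (k / τ) ∧
    (1 ≤ k → 1 < τ → ∀ᵐ ξ : Fin k → ℝ, (∀ j, 0 < ξ j) → ∀ᶠ q : ℕ in atTop, ∀ t : Fin (k + 1) → ℕ, t 0 = q →
      (∀ j : Fin k, |ξ j - t j.succ / q| ≤ (q : ℝ) ^ (-τ)) → ¬ E (C ^ q) t) := by
  have h5 : (1 : ℝ) ≤ max |C| 1 := le_max_right _ _
  have hmono : Monotone fun N : ℕ => {s : Fin (k + 1) → ℕ | E ((max |C| 1) ^ N) s} := by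
    intro N N' hN s hs
    exact hE _ _ s (pow_le_pow_right₀ h5 hN) hs
  have himp : ∀ (q : ℕ) (t : Fin (k + 1) → ℕ), E (C ^ q) t → E ((max |C| 1) ^ q) t := by
    intro q t
    refine hE _ _ t ?_
    calc C ^ q ≤ |C ^ q| := le_abs_self _
      _ = |C| ^ q := abs_pow C q
      _ ≤ (max |C| 1) ^ q := pow_le_pow_left₀ (abs_nonneg C) (le_max_left _ _) q
  have hk : (0 : ℝ) ≤ k := Nat.cast_nonneg k
  refine ⟨?_, fun hk1 hτ1 => ?_⟩
  · refine le_trans (dimH_mono ?_) (rat _ hmono hk hτ (bad_count hE h C))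
    rintro ξ ⟨h1, h2⟩
    refine ⟨h1, fun h3 => h2 ?_⟩
    filter_upwards [h3] with q hq t ht0 htn hb
    exact hq t ht0 htn (himp q t hb)
  · have h6 := rat_ae _ hmono hk hτ (bad_count hE h C) (by
      have : (1 : ℝ) ≤ k := by exact_mod_cast hk1
      nlinarith)
    filter_upwards [h6] with ξ hξ h1
    filter_upwards [hξ h1] with q hq t ht0 htn hb
    exact hq t ht0 htn (himp q t hb)

/-- an irrational number has convergents with arbitrarily large denominators -/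
theorem exists_conv {ξ : ℝ} (hξ : Irrational ξ) (h0 : 0 < ξ) (B : ℕ) : ∃ p q : ℕ, B ≤ q ∧ B ≤ p ∧ 1 ≤ q ∧ p.Coprime q ∧
    |ξ - p / q| < 1 / (q : ℝ) ^ 2 := by
  have hinf := Real.infinite_rat_abs_sub_lt_one_div_den_sq_of_irrational hξ
  obtain ⟨L, hL⟩ := exists_nat_ge ((B : ℝ) + B / ξ + 2 / ξ + 2)
  have hfin : {x : ℚ | |ξ - x| < 1 / (x.den : ℝ) ^ 2 ∧ x.den ≤ L}.Finite := by
    obtain ⟨R, hR⟩ := exists_nat_ge ((ξ + 1) * (L + 1))
    refine Set.Finite.of_injOn (f := fun x : ℚ => (x.num, x.den)) (t := Set.Icc (-(R : ℤ)) R ×ˢ Set.Iic L) ?_ ?_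
      ((Set.finite_Icc _ _).prod (Set.finite_Iic _))
    · rintro x ⟨h1, h2⟩
      have hd : (1 : ℝ) ≤ x.den := by exact_mod_cast x.pos
      have h3 : 1 / (x.den : ℝ) ^ 2 ≤ 1 := by
        rw [div_le_one (by positivity)]
        nlinarith
      have h4 : |(x : ℝ)| ≤ ξ + 1 := by
        have h6 := abs_lt.1 (h1.trans_le h3)
        rw [abs_le]
        constructor <;> linarith [h6.1, h6.2]
      have h5 : (x : ℝ) = x.num / x.den := by
        exact_mod_cast (Rat.num_div_den x).symm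
      have h6 : |(x.num : ℝ)| ≤ R := by
        have h7 : (x.num : ℝ) = x * x.den := by rw [h5]; field_simp
        rw [h7, abs_mul, abs_of_pos (by linarith : (0 : ℝ) < x.den)]
        refine le_trans ?_ hR
        have h8 : (x.den : ℝ) ≤ L + 1 := by
          have : (x.den : ℝ) ≤ L := by exact_mod_cast h2
          linarith
        exact mul_le_mul h4 h8 (by positivity) (by linarith)
      refine ⟨?_, h2⟩
      have h9 := abs_le.1 h6
      exact ⟨by exact_mod_cast h9.1, by exact_mod_cast h9.2⟩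
    · intro x _ y _ hxy
      simp only [Prod.mk.injEq] at hxy
      exact Rat.ext hxy.1 hxy.2
  obtain ⟨x, hx1, hx2⟩ := hinf.exists_notMem_finite hfin
  have hden : L < x.den := by
    by_contra hcon
    exact hx2 ⟨hx1, not_lt.1 hcon⟩
  simp only [Set.mem_setOf_eq] at hx1
  have hd : ((B : ℝ) + B / ξ + 2 / ξ + 2) < x.den := by
    have : (L : ℝ) < x.den := by exact_mod_cast hden
    linarith
  have hB0 : (0 : ℝ) ≤ B := Nat.cast_nonneg B
  have h2 : 0 ≤ (B : ℝ) / ξ := by positivity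
  have h3 : 0 ≤ 2 / ξ := by positivity
  have hd1 : (1 : ℝ) ≤ x.den := by exact_mod_cast x.pos
  have h4 : 1 / (x.den : ℝ) ^ 2 ≤ 1 / x.den := by
    apply one_div_le_one_div_of_le (by linarith)
    nlinarith
  have h5 : (x : ℝ) = x.num / x.den := by
    exact_mod_cast (Rat.num_div_den x).symm
  have h6 : ξ * x.den - 1 ≤ x.num := by
    have h7 := (abs_lt.1 (hx1.trans_le h4)).2
    have h8 : ξ - 1 / x.den < x := by linarith
    rw [h5] at h8
    have h9 := mul_lt_mul_of_pos_right h8 (by linarith : (0 : ℝ) < x.den)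
    rw [sub_mul, one_div_mul_cancel (by positivity), div_mul_cancel₀ _ (by positivity)] at h9
    linarith
  have h10 : (B : ℝ) ≤ x.num := by
    refine le_trans ?_ h6
    have h11 := mul_lt_mul_of_pos_left hd h0
    have h12 : ξ * ((B : ℝ) + B / ξ + 2 / ξ + 2) = ξ * B + B + 2 + 2 * ξ := by
      have e1 : ξ * (B / ξ) = B := by field_simp
      have e2 : ξ * (2 / ξ) = 2 := by field_simp
      linear_combination e1 + e2
    rw [h12] at h11
    have h13 : 0 ≤ ξ * B := by positivity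
    linarith
  have hnum : 0 ≤ x.num := by
    have : (0 : ℝ) ≤ x.num := hB0.trans h10
    exact_mod_cast this
  obtain ⟨p, hp⟩ := Int.eq_ofNat_of_zero_le hnum
  refine ⟨p, x.den, ?_, ?_, x.pos, ?_, ?_⟩
  · have : (B : ℝ) ≤ x.den := by linarith
    exact_mod_cast this
  · rw [hp] at h10
    exact_mod_cast h10
  · have := x.reduced
    rw [hp] at this
    simpa using this
  · have h14 : ((p : ℝ) / x.den) = x := by
      have h15 : (x.num : ℝ) = p := by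
        rw [hp]
        simp
      rw [← h15]
      exact h5.symm
    rw [h14]
    exact hx1

end Pool.Agent.D0H63.MR
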