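import Pool.Agent.N671.DA.Tup

set_option autoImplicit false

/-! From `K N ^ (k - 1)` bad tuples in the boxes `[N, κ N] ^ k` to the good approximations of systems of linear forms. -/

namespace Pool.Agent.D0H63.MR

open Filter Set MeasureTheory
open Pool.Agent.N671.DA (Near Thin approx_vectors box_fin)
open scoped ENNReal

/-- the integer vectors given by the tuples in the cone with the property `E` -/
def cone {k : ℕ} (κ : ℕ) (C : ℝ) (E : ℝ → (Fin k → ℕ) → Prop) : Set (Fin k → ℤ) :=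
  {q | ∃ s : Fin k → ℕ, (∀ j, q j = s j) ∧ (∀ a b, s a ≤ κ * s b) ∧ E (C ^ (∑ j, s j)) s}

theorem thin_cone {k : ℕ} (hk : 1 ≤ k) {E : ℝ → (Fin k → ℕ) → Prop} (hE : ∀ H H' s, H ≤ H' → E H s → E H' s)
    (h : ∀ κ : ℕ, ∃ K : ℕ, ∀ C : ℝ, ∃ N₀ : ℕ, ∀ N : ℕ, N₀ ≤ N →
      {s : Fin k → ℕ | (∀ j, N ≤ s j ∧ s j ≤ κ * N) ∧ E (C ^ N) s}.ncard ≤ K * N ^ (k - 1)) (κ : ℕ) (C : ℝ) :
    Thin (cone κ C E) ((k : ℝ) - 1) := by
  classical
  obtain ⟨K, hK⟩ := h (2 * κ)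
  obtain ⟨N₀, hN₀⟩ := hK ((max |C| 1) ^ (k * (2 * κ)))
  have h1 : (1 : ℝ) ≤ max |C| 1 := le_max_right _ _
  intro ε hε
  -- the tuples
  obtain ⟨F, hF⟩ : ∃ F : Set (Fin k → ℕ), F = {s | (∀ a b, s a ≤ κ * s b) ∧ E (C ^ (∑ j, s j)) s} := ⟨_, rfl⟩
  let S : ℕ → Set (Fin k → ℕ) := fun a => {s : Fin k → ℕ | (∀ j, 2 ^ a ≤ s j ∧ s j ≤ (2 * κ) * 2 ^ a) ∧
    E (((max |C| 1) ^ (k * (2 * κ))) ^ (2 ^ a)) s}
  have hboxfin : ∀ T : ℕ, {s : Fin k → ℕ | ∀ j, s j ≤ T}.Finite := by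
    intro T
    refine (Set.Finite.pi (fun _ : Fin k => Set.finite_Iic T)).subset ?_
    intro s hs j _
    exact hs j
  have hSfin : ∀ a, (S a).Finite := fun a => (hboxfin ((2 * κ) * 2 ^ a)).subset fun s hs j => (hs.1 j).2
  obtain ⟨a₀, ha₀⟩ : ∃ a₀ : ℕ, N₀ ≤ 2 ^ a₀ := ⟨N₀, Nat.lt_two_pow_self.le⟩
  obtain ⟨C₁, hC₁⟩ : ∃ C₁ : ℕ, C₁ = {s : Fin k → ℕ | ∀ j, s j ≤ κ * 2 ^ a₀}.ncard := ⟨_, rfl⟩
  have hk0 : (0 : ℝ) ≤ (k : ℝ) - 1 := by
    have : (1 : ℝ) ≤ k := by exact_mod_cast hk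
    linarith
  -- the count for natural bounds
  have hcount : ∀ T : ℕ, 1 ≤ T → {s : Fin k → ℕ | s ∈ F ∧ ∀ j, s j ≤ T}.ncard ≤
      C₁ + (Nat.log 2 T + 1) * (K * T ^ (k - 1)) := by
    intro T hT
    have hsub : {s : Fin k → ℕ | s ∈ F ∧ ∀ j, s j ≤ T} ⊆ {s : Fin k → ℕ | ∀ j, s j ≤ κ * 2 ^ a₀} ∪
        ⋃ a ∈ (Finset.range (Nat.log 2 T + 1)).filter (fun a => a₀ ≤ a), S a := by
      rintro s ⟨hs, hsT⟩
      rw [hF] at hs
      obtain ⟨hs1, hs2⟩ := hs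
      obtain ⟨j₀, -, hj₀⟩ := Finset.exists_min_image (Finset.univ : Finset (Fin k)) s
        ⟨⟨0, by omega⟩, Finset.mem_univ _⟩
      by_cases hsm : s j₀ < 2 ^ a₀
      · left
        intro j
        exact (hs1 j j₀).trans (Nat.mul_le_mul_left _ hsm.le)
      · right
        rw [not_lt] at hsm
        have hpos : 1 ≤ s j₀ := le_trans Nat.one_le_two_pow hsm
        rw [Set.mem_iUnion₂]
        refine ⟨Nat.log 2 (s j₀), ?_, ?_, ?_⟩
        · rw [Finset.mem_filter, Finset.mem_range]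
          refine ⟨Nat.lt_succ_of_le (Nat.log_mono_right (hsT j₀)), ?_⟩
          exact Nat.le_log_of_pow_le (by norm_num) hsm
        · intro j
          have h2 : 2 ^ Nat.log 2 (s j₀) ≤ s j₀ := Nat.pow_log_le_self 2 (by omega)
          have h3 : s j₀ ≤ 2 * 2 ^ Nat.log 2 (s j₀) := by
            have := Nat.lt_pow_succ_log_self (b := 2) (by norm_num) (s j₀)
            rw [Nat.succ_eq_add_one, pow_succ] at this
            omega
          refine ⟨h2.trans (hj₀ j (Finset.mem_univ _)), (hs1 j j₀).trans ?_⟩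
          calc κ * s j₀ ≤ κ * (2 * 2 ^ Nat.log 2 (s j₀)) := Nat.mul_le_mul_left _ h3
            _ = _ := by ring
        · refine hE _ _ s ?_ hs2
          have h3 : s j₀ ≤ 2 * 2 ^ Nat.log 2 (s j₀) := by
            have := Nat.lt_pow_succ_log_self (b := 2) (by norm_num) (s j₀)
            rw [Nat.succ_eq_add_one, pow_succ] at this
            omega
          have h4 : ∑ j, s j ≤ k * (2 * κ) * 2 ^ Nat.log 2 (s j₀) := by
            calc ∑ j, s j ≤ ∑ _j : Fin k, κ * (2 * 2 ^ Nat.log 2 (s j₀)) :=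
                  Finset.sum_le_sum fun j _ => (hs1 j j₀).trans (Nat.mul_le_mul_left _ h3)
              _ = _ := by
                rw [Finset.sum_const, Finset.card_univ, Fintype.card_fin, smul_eq_mul]
                ring
          calc C ^ (∑ j, s j) ≤ |C ^ (∑ j, s j)| := le_abs_self _
            _ = |C| ^ (∑ j, s j) := abs_pow C _
            _ ≤ (max |C| 1) ^ (∑ j, s j) := pow_le_pow_left₀ (abs_nonneg C) (le_max_left _ _) _
            _ ≤ (max |C| 1) ^ (k * (2 * κ) * 2 ^ Nat.log 2 (s j₀)) := pow_le_pow_right₀ h1 h4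
            _ = _ := pow_mul _ _ _
    have hfinU : ({s : Fin k → ℕ | ∀ j, s j ≤ κ * 2 ^ a₀} ∪
        ⋃ a ∈ (Finset.range (Nat.log 2 T + 1)).filter (fun a => a₀ ≤ a), S a).Finite :=
      (hboxfin _).union (Set.Finite.biUnion (Finset.finite_toSet _) fun a _ => hSfin a)
    refine (Set.ncard_le_ncard hsub hfinU).trans ((Set.ncard_union_le _ _).trans ?_)
    rw [hC₁]
    refine Nat.add_le_add_left ((Finset.set_ncard_biUnion_le _ _).trans ?_) _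
    calc ∑ a ∈ (Finset.range (Nat.log 2 T + 1)).filter (fun a => a₀ ≤ a), (S a).ncard
        ≤ ∑ a ∈ (Finset.range (Nat.log 2 T + 1)).filter (fun a => a₀ ≤ a), K * T ^ (k - 1) := by
          refine Finset.sum_le_sum fun a ha => ?_
          rw [Finset.mem_filter, Finset.mem_range] at ha
          have h2 : N₀ ≤ 2 ^ a := ha₀.trans (Nat.pow_le_pow_right (by norm_num) ha.2)
          refine (hN₀ (2 ^ a) h2).trans (Nat.mul_le_mul_left K (Nat.pow_le_pow_left ?_ _))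
          exact Nat.pow_le_of_le_log (by omega) (by omega)
      _ ≤ ∑ a ∈ Finset.range (Nat.log 2 T + 1), K * T ^ (k - 1) :=
          Finset.sum_le_sum_of_subset (Finset.filter_subset _ _)
      _ = _ := by rw [Finset.sum_const, Finset.card_range, smul_eq_mul]
  refine ⟨C₁ + (1 / (ε * Real.log 2) + 1) * K, fun X hX => ?_⟩
  have hX1 : 1 ≤ ⌊X⌋₊ := Nat.le_floor (by exact_mod_cast hX)
  have hXf : (⌊X⌋₊ : ℝ) ≤ X := Nat.floor_le (by linarith)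
  have hinj : {q : Fin k → ℤ | q ∈ cone κ C E ∧ ∀ i, |(q i : ℝ)| ≤ X}.ncard ≤
      {s : Fin k → ℕ | s ∈ F ∧ ∀ j, s j ≤ ⌊X⌋₊}.ncard := by
    refine Set.ncard_le_ncard_of_injOn (fun q i => (q i).toNat) ?_ ?_
      ((hboxfin ⌊X⌋₊).subset fun s hs => hs.2)
    · rintro q ⟨⟨s, hs1, hs2, hs3⟩, hqX⟩
      have h2 : (fun i => (q i).toNat) = s := by
        funext i
        rw [hs1 i, Int.toNat_natCast]
      simp only [Set.mem_setOf_eq]
      rw [h2, hF]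
      refine ⟨⟨hs2, hs3⟩, fun j => Nat.le_floor ?_⟩
      have h3 := hqX j
      rw [hs1 j] at h3
      have h8 : (q j).toNat = s j := congrFun h2 j
      simpa [h8] using h3
    · rintro q ⟨⟨s, hs1, -⟩, -⟩ q' ⟨⟨s', hs1', -⟩, -⟩ heq
      funext i
      have h2 := congrFun heq i
      simp only [hs1 i, hs1' i, Int.toNat_natCast] at h2
      rw [hs1 i, hs1' i, h2]
  have h2 := hinj.trans (hcount ⌊X⌋₊ hX1)
  have h3 : (({q : Fin k → ℤ | q ∈ cone κ C E ∧ ∀ i, |(q i : ℝ)| ≤ X}.ncard : ℕ) : ℝ) ≤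
      C₁ + ((Nat.log 2 ⌊X⌋₊ : ℕ) + 1) * (K * (⌊X⌋₊ : ℝ) ^ (k - 1)) := by exact_mod_cast h2
  refine h3.trans ?_
  have hX0 : (0 : ℝ) < X := by linarith
  have h4 : ((Nat.log 2 ⌊X⌋₊ : ℕ) : ℝ) ≤ X ^ ε / (ε * Real.log 2) := by
    have hl2 : 0 < Real.log 2 := Real.log_pos (by norm_num)
    have h5 : (Nat.log 2 ⌊X⌋₊ : ℝ) * Real.log 2 ≤ Real.log X := by
      rw [← Real.log_pow]
      refine Real.log_le_log (by positivity) (le_trans ?_ hXf)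
      exact_mod_cast Nat.pow_log_le_self 2 (by omega : ⌊X⌋₊ ≠ 0)
    have h6 : Real.log X ≤ X ^ ε / ε := Real.log_le_rpow_div hX0.le hε
    rw [le_div_iff₀ (by positivity)]
    rw [le_div_iff₀ hε] at h6
    nlinarith
  have h5 : (1 : ℝ) ≤ X ^ ε := Real.one_le_rpow hX hε.le
  have h6 : (⌊X⌋₊ : ℝ) ^ (k - 1) ≤ X ^ ((k : ℝ) - 1) := by
    have h7 : (X : ℝ) ^ ((k : ℝ) - 1) = X ^ (k - 1) := by
      rw [← Real.rpow_natCast, Nat.cast_sub hk, Nat.cast_one]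
    rw [h7]
    exact pow_le_pow_left₀ (Nat.cast_nonneg _) hXf _
  have h7 : (1 : ℝ) ≤ X ^ ((k : ℝ) - 1) := Real.one_le_rpow hX hk0
  have h8 : X ^ ((k : ℝ) - 1 + ε) = X ^ ((k : ℝ) - 1) * X ^ ε := Real.rpow_add hX0 _ _
  have h9 : ((Nat.log 2 ⌊X⌋₊ : ℕ) : ℝ) + 1 ≤ (1 / (ε * Real.log 2) + 1) * X ^ ε := by
    have : X ^ ε / (ε * Real.log 2) = 1 / (ε * Real.log 2) * X ^ ε := by ring
    rw [this] at h4
    linarith
  have hC0 : (0 : ℝ) ≤ C₁ := Nat.cast_nonneg _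
  have hK0 : (0 : ℝ) ≤ K := Nat.cast_nonneg _
  rw [h8]
  have h10 : ((Nat.log 2 ⌊X⌋₊ : ℕ) + 1 : ℝ) * (K * (⌊X⌋₊ : ℝ) ^ (k - 1)) ≤
      ((1 / (ε * Real.log 2) + 1) * X ^ ε) * (K * X ^ ((k : ℝ) - 1)) := by
    refine mul_le_mul h9 (mul_le_mul_of_nonneg_left h6 hK0) (by positivity) ?_
    have hl2 : 0 < Real.log 2 := Real.log_pos (by norm_num)
    positivity
  have h11 : (C₁ : ℝ) ≤ C₁ * (X ^ ((k : ℝ) - 1) * X ^ ε) := by
    refine le_mul_of_one_le_right hC0 ?_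
    nlinarith
  linarith

/-- Systems of linear forms, countably many properties, one exceptional set for all constants. -/
theorem forms_of_few {k m : ℕ} (hk : 1 ≤ k) {ι : Type} [Countable ι] {E : ι → ℝ → (Fin k → ℕ) → Prop}
    (hE : ∀ i H H' s, H ≤ H' → E i H s → E i H' s)
    (h : ∀ i, ∀ κ : ℕ, ∃ K : ℕ, ∀ C : ℝ, ∃ N₀ : ℕ, ∀ N : ℕ, N₀ ≤ N →
      {s : Fin k → ℕ | (∀ j, N ≤ s j ∧ s j ≤ κ * N) ∧ E i (C ^ N) s}.ncard ≤ K * N ^ (k - 1))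
    (β : Fin m → ℝ) {τ : ℝ} (hτ : 0 < τ) :
    ∃ X : Set (Fin k × Fin m → ℝ), dimH X ≤ ENNReal.ofReal (((k : ℝ) - 1) * m + (m + ((k : ℝ) - 1)) / (1 + τ)) ∧
      ∀ α, α ∉ X → ∀ (i : ι) (C c : ℝ) (κ : ℕ), ∃ Q : ℕ, ∀ s : Fin k → ℕ, (∃ j, Q ≤ s j) → (∀ a b, s a ≤ κ * s b) →
        Near α β (fun j => (s j : ℤ)) (c * ‖fun j => (s j : ℤ)‖ ^ (-τ)) → ¬ E i (C ^ (∑ j, s j)) s := by
  classical
  have hk0 : (0 : ℝ) ≤ (k : ℝ) - 1 := by
    have : (1 : ℝ) ≤ k := by exact_mod_cast hk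
    linarith
  choose X hX1 hX2 using fun (p : ι × ℕ × ℕ) =>
    approx_vectors (m := m) hk (cone p.2.2 (p.2.1 : ℝ) (E p.1)) hk0 (thin_cone hk (hE p.1) (h p.1) p.2.2 p.2.1) β hτ
  refine ⟨⋃ p, X p, ?_, fun α hα i C c κ => ?_⟩
  · rw [dimH_iUnion]
    exact iSup_le hX1
  · obtain ⟨n, hn⟩ := exists_nat_ge |C|
    have h1 : α ∉ X (i, n, κ) := fun h2 => hα (Set.mem_iUnion.2 ⟨_, h2⟩)
    obtain ⟨Q, hQ⟩ := hX2 (i, n, κ) α h1 c
    obtain ⟨L, hL⟩ := exists_nat_ge Q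
    refine ⟨L, fun s hs hcone hnear hbad => ?_⟩
    obtain ⟨j, hj⟩ := hs
    refine hQ (fun j => (s j : ℤ)) ?_ hnear ⟨s, fun _ => rfl, hcone, hE i _ _ s ?_ hbad⟩
    · have h2 : ((s j : ℕ) : ℝ) ≤ ‖fun j => (s j : ℤ)‖ := by
        have h3 := norm_le_pi_norm (fun j => (s j : ℤ)) j
        simpa using h3
      refine le_trans ?_ h2
      have : (L : ℝ) ≤ s j := by exact_mod_cast hj
      linarith
    · calc C ^ (∑ j, s j) ≤ |C ^ (∑ j, s j)| := le_abs_self _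
        _ = |C| ^ (∑ j, s j) := abs_pow C _
        _ ≤ (n : ℝ) ^ (∑ j, s j) := pow_le_pow_left₀ (abs_nonneg C) hn _

end Pool.Agent.D0H63.MR
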