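import Pool.Agent.N84.MD.C

set_option autoImplicit false

/-! Bad numerators for every denominator, and the simultaneous rational approximations of real vectors. -/

namespace Pool.Agent.D0H63.MR

open Filter Set MeasureTheory
open scoped ENNReal

theorem grid_core {X : Type} [Fintype X] (W : ℕ → Set (X → ℤ)) {r τ : ℝ} (hr : 0 ≤ r) (hτ : 0 < τ) (κ : ℕ)
    (hW : ∃ (C : ℝ) (q₀ : ℕ), ∀ q : ℕ, q₀ ≤ q →
      ({p : X → ℤ | (∀ j, |p j| ≤ ((κ + 1) * q : ℕ)) ∧ p ∈ W q}.ncard : ℝ) ≤ C * (q : ℝ) ^ r) :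
    dimH {ξ : X → ℝ | (∀ j, |ξ j| ≤ κ) ∧ ¬ ∀ᶠ q : ℕ in atTop, ∀ p : X → ℤ,
      (∀ j, |ξ j - p j / q| ≤ (q : ℝ) ^ (-τ)) → p ∉ W q} ≤ ENNReal.ofReal ((r + 1) / τ) := by
  classical
  obtain ⟨C, q₀, hC⟩ := hW
  let S : ℕ → Set (X → ℤ) := fun q => {p : X → ℤ | (∀ j, |p j| ≤ ((κ + 1) * q : ℕ)) ∧ p ∈ W q}
  have hSfin : ∀ q, (S q).Finite := by
    intro q
    refine (Set.Finite.pi (fun _ : X => Set.finite_Icc (-(((κ + 1) * q : ℕ) : ℤ)) ((κ + 1) * q : ℕ))).subset ?_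
    intro p hp j _
    exact abs_le.1 (hp.1 j)
  let B : ℝ → Set (ℕ × (X → ℤ)) := fun T => {e | (e.1 : ℝ) = T ∧ q₀ ≤ e.1 ∧ e.2 ∈ S e.1}
  let E : ℝ → Set (ℕ × (X → ℤ)) := fun T => {e | (e.1 : ℝ) ≤ T ∧ q₀ ≤ e.1 ∧ e.2 ∈ S e.1}
  let Q : ℝ → Finset ℕ := fun T => (Finset.Icc 1 ⌊T⌋₊).filter fun q => q₀ ≤ q
  have hS0 : S 0 ⊆ {0} := by
    intro p hp
    rw [Set.mem_singleton_iff]
    funext j
    have h := hp.1 j
    rw [Nat.mul_zero, Nat.cast_zero] at h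
    exact abs_nonpos_iff.1 h
  have hsubE : ∀ T, E T ⊆ {((0 : ℕ), (0 : X → ℤ))} ∪ ⋃ q ∈ Q T, (fun p => (q, p)) '' S q := by
    rintro T ⟨q, p⟩ ⟨h1, h2, h3⟩
    rcases Nat.eq_zero_or_pos q with h0 | h0
    · left
      have h4 : q = 0 := h0
      subst h4
      have h5 := hS0 h3
      rw [Set.mem_singleton_iff] at h5 ⊢
      simp only at h5
      rw [h5]
    · right
      rw [Set.mem_iUnion₂]
      refine ⟨q, ?_, p, h3, rfl⟩
      rw [Finset.mem_filter, Finset.mem_Icc]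
      exact ⟨⟨h0, Nat.le_floor h1⟩, h2⟩
  have hUfin : ∀ T, ({((0 : ℕ), (0 : X → ℤ))} ∪ ⋃ q ∈ Q T, (fun p => (q, p)) '' S q).Finite := fun T =>
    (Set.finite_singleton _).union (Set.Finite.biUnion (Finset.finite_toSet _) fun q _ => (hSfin q).image _)
  have hsc := Pool.Agent.N84.MD.scales (X := X) (S := ℕ × (X → ℤ))
    (fun e j => (e.2 j : ℝ) / e.1) B E (s := r + 1) (by linarith) hτ
    ⟨1, fun T T' hT h1 h2 => by
      rintro e ⟨he0, he1, he2⟩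
      exact ⟨by rw [he0]; exact h1, he1, he2⟩⟩
    ⟨|C| + 1, fun T hT => by
      refine ⟨(hUfin T).subset (hsubE T), ?_⟩
      have hT0 : 0 ≤ T := by linarith
      have h1 := (Set.ncard_le_ncard (hsubE T) (hUfin T)).trans (Set.ncard_union_le _ _)
      rw [Set.ncard_singleton] at h1
      have h2 := h1.trans (Nat.add_le_add_left (Finset.set_ncard_biUnion_le _ _) 1)
      have h3 : ∀ q ∈ Q T, ((((fun p => (q, p)) '' S q).ncard : ℕ) : ℝ) ≤ |C| * T ^ r := by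
        intro q hq
        rw [Finset.mem_filter, Finset.mem_Icc] at hq
        have h4 : ((fun p : X → ℤ => (q, p)) '' S q).ncard ≤ (S q).ncard := Set.ncard_image_le (hSfin q)
        have h5 : (q : ℝ) ≤ T := (Nat.cast_le.2 hq.1.2).trans (Nat.floor_le hT0)
        have h6 : (q : ℝ) ^ r ≤ T ^ r := Real.rpow_le_rpow (Nat.cast_nonneg _) h5 hr
        have h7 : (0 : ℝ) ≤ (q : ℝ) ^ r := by positivity
        calc ((((fun p => (q, p)) '' S q).ncard : ℕ) : ℝ) ≤ ((S q).ncard : ℕ) := by exact_mod_cast h4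
          _ ≤ C * (q : ℝ) ^ r := hC q hq.2
          _ ≤ |C| * (q : ℝ) ^ r := mul_le_mul_of_nonneg_right (le_abs_self C) h7
          _ ≤ |C| * T ^ r := mul_le_mul_of_nonneg_left h6 (abs_nonneg C)
      have h4 : ((Q T).card : ℝ) ≤ T := by
        have h5 : (Q T).card ≤ ⌊T⌋₊ := (Finset.card_filter_le _ _).trans (by rw [Nat.card_Icc]; omega)
        exact (Nat.cast_le.2 h5).trans (Nat.floor_le hT0)
      have hTr : 1 ≤ T ^ (r + 1) := Real.one_le_rpow hT (by linarith)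
      have h5 : T * T ^ r = T ^ (r + 1) := by
        rw [Real.rpow_add (by linarith), Real.rpow_one, mul_comm]
      calc (((E T).ncard : ℕ) : ℝ) ≤ ((1 + ∑ q ∈ Q T, ((fun p : X → ℤ => (q, p)) '' S q).ncard : ℕ) : ℝ) := by
            exact_mod_cast h2
        _ = 1 + ∑ q ∈ Q T, ((((fun p : X → ℤ => (q, p)) '' S q).ncard : ℕ) : ℝ) := by push_cast; ring
        _ ≤ 1 + ∑ q ∈ Q T, |C| * T ^ r := by
            have := Finset.sum_le_sum h3
            linarith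
        _ = 1 + (Q T).card * (|C| * T ^ r) := by rw [Finset.sum_const, nsmul_eq_mul]
        _ ≤ 1 + T * (|C| * T ^ r) := by
            have := mul_le_mul_of_nonneg_right h4 (by positivity : 0 ≤ |C| * T ^ r)
            linarith
        _ = 1 + |C| * T ^ (r + 1) := by rw [← h5]; ring
        _ ≤ (|C| + 1) * T ^ (r + 1) := by linarith⟩
  refine le_trans (dimH_mono ?_) hsc
  rintro ξ ⟨h1, h2⟩ h3
  apply h2
  have h4 : ∀ᶠ q : ℕ in atTop, ∀ e ∈ B (q : ℝ), ¬ ∀ i, |ξ i - (e.2 i : ℝ) / e.1| ≤ (q : ℝ) ^ (-τ) :=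
    tendsto_natCast_atTop_atTop.eventually h3
  filter_upwards [h4, eventually_ge_atTop (max q₀ 1)] with q hq hq2 p hp hpW
  have hq3 : 1 ≤ q := (le_max_right _ _).trans hq2
  have hq0 : (0 : ℝ) < q := by exact_mod_cast hq3
  refine hq (q, p) ⟨rfl, (le_max_left _ _).trans hq2, fun j => ?_, hpW⟩ hp
  have h5 : (q : ℝ) ^ (-τ) ≤ 1 := Real.rpow_le_one_of_one_le_of_nonpos (by exact_mod_cast hq3) (by linarith)
  have h6 := abs_le.1 ((hp j).trans h5)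
  have h7 := abs_le.1 (h1 j)
  have h8 : |(p j : ℝ) / q| ≤ κ + 1 := by
    rw [abs_le]
    constructor <;> linarith [h6.1, h6.2, h7.1, h7.2]
  rw [abs_div, abs_of_pos hq0, div_le_iff₀ hq0] at h8
  have h9 : ((|p j| : ℤ) : ℝ) ≤ (((κ + 1) * q : ℕ) : ℝ) := by
    push_cast
    exact h8
  exact_mod_cast h9

/-- The bad numerators `p` with denominator `q`, `|p| ≤ κ q`, are at most `C q ^ (r + ε)` in number, for every `ε > 0`. For all
real vectors `ξ` but a set of dimension at most `(r + 1) / τ`, for all `C` and all large `q`, no `p` with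
`|ξ_j - p_j / q| ≤ C q ^ (-τ)` is bad. -/
theorem grid {X : Type} [Fintype X] (W : ℕ → Set (X → ℤ)) {r τ : ℝ} (hr : 0 ≤ r) (hτ : 0 < τ)
    (hW : ∀ (κ : ℕ) (ε : ℝ), 0 < ε → ∃ (C : ℝ) (q₀ : ℕ), ∀ q : ℕ, q₀ ≤ q →
      ({p : X → ℤ | (∀ j, |p j| ≤ (κ * q : ℕ)) ∧ p ∈ W q}.ncard : ℝ) ≤ C * (q : ℝ) ^ (r + ε)) :
    dimH {ξ : X → ℝ | ¬ ∀ C : ℝ, ∀ᶠ q : ℕ in atTop, ∀ p : X → ℤ,
      (∀ j, |ξ j - p j / q| ≤ C * (q : ℝ) ^ (-τ)) → p ∉ W q} ≤ ENNReal.ofReal ((r + 1) / τ) := by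
  refine Pool.Agent.N84.MD.dim_le_of_forall (div_nonneg (by linarith) hτ.le) fun D hD => ?_
  have hD0 : 0 < D := lt_of_le_of_lt (div_nonneg (by linarith) hτ.le) hD
  rw [div_lt_iff₀ hτ] at hD
  obtain ⟨η, hη⟩ : ∃ η : ℝ, η = D * τ - (r + 1) := ⟨_, rfl⟩
  have hη0 : 0 < η := by rw [hη]; linarith
  obtain ⟨τ', hτ'⟩ : ∃ τ' : ℝ, τ' = τ - min (τ / 2) (η / (2 * D)) := ⟨_, rfl⟩
  have hm0 : 0 < min (τ / 2) (η / (2 * D)) := lt_min (by linarith) (by positivity)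
  have hm1 : min (τ / 2) (η / (2 * D)) ≤ τ / 2 := min_le_left _ _
  have hm2 : min (τ / 2) (η / (2 * D)) ≤ η / (2 * D) := min_le_right _ _
  have hτ'0 : 0 < τ' := by rw [hτ']; linarith
  have hτ'1 : τ' < τ := by rw [hτ']; linarith
  have hle : (r + η / 2 + 1) / τ' ≤ D := by
    rw [div_le_iff₀ hτ'0]
    have h1 : D * min (τ / 2) (η / (2 * D)) ≤ η / 2 := by
      calc D * min (τ / 2) (η / (2 * D)) ≤ D * (η / (2 * D)) := mul_le_mul_of_nonneg_left hm2 hD0.le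
        _ = η / 2 := by field_simp
    rw [hτ', mul_sub]
    linarith
  have hsub : {ξ : X → ℝ | ¬ ∀ C : ℝ, ∀ᶠ q : ℕ in atTop, ∀ p : X → ℤ,
      (∀ j, |ξ j - p j / q| ≤ C * (q : ℝ) ^ (-τ)) → p ∉ W q} ⊆
      ⋃ κ : ℕ, {ξ : X → ℝ | (∀ j, |ξ j| ≤ κ) ∧ ¬ ∀ᶠ q : ℕ in atTop, ∀ p : X → ℤ,
      (∀ j, |ξ j - p j / q| ≤ (q : ℝ) ^ (-τ')) → p ∉ W q} := by
    intro ξ h3
    rw [Set.mem_iUnion]
    obtain ⟨κ, hκ⟩ := exists_nat_ge (∑ j, |ξ j|)
    refine ⟨κ, fun j => (Finset.single_le_sum (f := fun i => |ξ i|) (fun i _ => abs_nonneg _)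
      (Finset.mem_univ j)).trans hκ, fun h4 => h3 fun C => ?_⟩
    have h5 : ∀ᶠ q : ℕ in atTop, C * (q : ℝ) ^ (-τ) ≤ (q : ℝ) ^ (-τ') := by
      have h6 : Tendsto (fun q : ℕ => (q : ℝ) ^ (τ - τ')) atTop atTop :=
        (tendsto_rpow_atTop (by linarith)).comp tendsto_natCast_atTop_atTop
      filter_upwards [h6.eventually_ge_atTop C, eventually_ge_atTop 1] with q hq hq1
      have hq0 : (0 : ℝ) < q := by exact_mod_cast (by omega : 0 < q)
      calc C * (q : ℝ) ^ (-τ) ≤ (q : ℝ) ^ (τ - τ') * (q : ℝ) ^ (-τ) :=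
            mul_le_mul_of_nonneg_right hq (Real.rpow_nonneg hq0.le _)
        _ = (q : ℝ) ^ (-τ') := by
          rw [← Real.rpow_add hq0]
          congr 1
          ring
    filter_upwards [h4, h5] with q hq hq5 p hp
    exact hq p fun j => (hp j).trans hq5
  refine le_trans (dimH_mono hsub) ?_
  rw [dimH_iUnion]
  refine iSup_le fun κ => ?_
  exact (grid_core W (r := r + η / 2) (τ := τ') (by linarith) hτ'0 κ (hW (κ + 1) (η / 2) (by linarith))).trans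
    (ENNReal.ofReal_le_ofReal hle)

end Pool.Agent.D0H63.MR
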