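import Mathlib

set_option autoImplicit false

/-! Heights of quotients of integers with bounded conjugates. -/

namespace Pool.Agent.D0H63.MR

open NumberField Height

variable {K : Type} [Field K] [NumberField K]

theorem place_le_house (x : K) (v : InfinitePlace K) : v x ≤ house x := by
  rw [← InfinitePlace.norm_embedding_eq]
  exact norm_embedding_le_house x v.embedding

theorem fin_le_one (v : FinitePlace K) (x : 𝓞 K) : v ((x : 𝓞 K) : K) ≤ 1 := by
  rw [← FinitePlace.norm_embedding_eq]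
  exact FinitePlace.norm_le_one K v.maximalIdeal x

theorem height_pair_le (p q : 𝓞 K) (hq : q ≠ 0) (B : ℝ) (hp : house (p : K) ≤ B) (hq' : house (q : K) ≤ B) :
    mulHeight₁ ((p : K) / q) ≤ B ^ Module.finrank ℚ K := by
  have hqK : (q : K) ≠ 0 := by exact_mod_cast hq
  let P : Fin 2 → 𝓞 K := ![p, q]
  have h0 : mulHeight₁ ((p : K) / q) = mulHeight (fun i => ((P i : 𝓞 K) : K)) := by
    rw [mulHeight₁_eq_mulHeight]
    have e : (fun i => ((P i : 𝓞 K) : K)) = (q : K) • ![(p : K) / q, 1] := by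
      funext i
      fin_cases i
      · simp [P, mul_div_cancel₀ _ hqK]
      · simp [P]
    rw [e]
    exact (mulHeight_smul_eq_mulHeight _ hqK).symm
  rw [h0]
  have hB : ∀ i, house ((P i : 𝓞 K) : K) ≤ B := by
    intro i
    fin_cases i
    · exact hp
    · exact hq'
  have hP : (fun i => ((P i : 𝓞 K) : K)) ≠ 0 := fun h => hqK (congrFun h 1)
  rw [NumberField.mulHeight_eq hP]
  have h0 : 0 ≤ B := (house_nonneg _).trans (hB 0)
  have h1 : (∏ᶠ v : FinitePlace K, ⨆ i, v ((P i : 𝓞 K) : K)) ≤ 1 := by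
    refine finprod_induction (fun x : ℝ => 0 ≤ x ∧ x ≤ 1) ⟨zero_le_one, le_rfl⟩ ?_ ?_ |>.2
    · rintro x y ⟨hx0, hx1⟩ ⟨hy0, hy1⟩
      exact ⟨mul_nonneg hx0 hy0, mul_le_one₀ hx1 hy0 hy1⟩
    · intro v
      exact ⟨Real.iSup_nonneg_of_nonnegHomClass _ _, ciSup_le fun i => fin_le_one v (P i)⟩
  have h2 : (∏ v : InfinitePlace K, (⨆ i, v ((P i : 𝓞 K) : K)) ^ v.mult) ≤ B ^ Module.finrank ℚ K := by
    calc (∏ v : InfinitePlace K, (⨆ i, v ((P i : 𝓞 K) : K)) ^ v.mult)
        ≤ ∏ v : InfinitePlace K, B ^ v.mult := by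
          apply Finset.prod_le_prod
          · intro v _
            exact pow_nonneg (Real.iSup_nonneg_of_nonnegHomClass _ _) _
          · intro v _
            apply pow_le_pow_left₀ (Real.iSup_nonneg_of_nonnegHomClass _ _)
            exact ciSup_le fun i => (place_le_house _ v).trans (hB i)
      _ = B ^ Module.finrank ℚ K := by
          rw [Finset.prod_pow_eq_pow_sum, InfinitePlace.sum_mult_eq]
  have h3 : 0 ≤ ∏ᶠ v : FinitePlace K, ⨆ i, v ((P i : 𝓞 K) : K) :=
    finprod_nonneg fun v => Real.iSup_nonneg_of_nonnegHomClass _ _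
  calc _ ≤ B ^ Module.finrank ℚ K * 1 := mul_le_mul h2 h1 h3 (by positivity)
    _ = _ := mul_one _

theorem height_int_le (x : 𝓞 K) (B : ℝ) (hB1 : 1 ≤ B) (hB : house ((x : 𝓞 K) : K) ≤ B) :
    mulHeight₁ ((x : 𝓞 K) : K) ≤ B ^ Module.finrank ℚ K := by
  have h := height_pair_le x 1 one_ne_zero B hB (by
    refine le_trans ?_ hB1
    refine (pi_norm_le_iff_of_nonneg zero_le_one).2 fun φ => ?_
    have e : canonicalEmbedding K (((1 : 𝓞 K) : 𝓞 K) : K) φ = 1 := by simp
    rw [e, norm_one])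
  simpa using h

end Pool.Agent.D0H63.MR
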