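import Mathlib

set_option autoImplicit false

/-! The number of the integers of a number field with bounded conjugates. -/

namespace Pool.Agent.D0H63.MR

open NumberField Module

theorem house_count (K : Type) [Field K] [NumberField K] : ∃ C : ℝ, 0 ≤ C ∧ ∀ R : ℝ, 1 ≤ R →
    {a : 𝓞 K | house (a : K) ≤ R}.Finite ∧
    ({a : 𝓞 K | house (a : K) ≤ R}.ncard : ℝ) ≤ C * R ^ (finrank ℚ K) := by
  classical
  -- the coordinates
  obtain ⟨c, hc0, hc⟩ : ∃ c : ℝ, 0 ≤ c ∧ ∀ (a : 𝓞 K) (i : Free.ChooseBasisIndex ℤ (𝓞 K)),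
      |((((RingOfIntegers.basis K).repr a i : ℤ)) : ℝ)| ≤ c * house (a : K) := by
    by_contra hcon
    push Not at hcon
    -- the constant of the library
    have h1 : ∃ c : ℝ, ∀ (a : 𝓞 K) (j : K →+* ℂ),
        ‖(((integralBasis K).reindex (equivReindex K).symm).repr a j : ℂ)‖ ≤ c * house (algebraMap (𝓞 K) K a) :=
      ⟨_, house.basis_repr_norm_le_const_mul_house K⟩
    obtain ⟨c, hc⟩ := h1
    obtain ⟨a, i, hai⟩ := hcon (max c 0) (le_max_right _ _)
    have h2 := hc a ((equivReindex K).symm i)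
    rw [Basis.repr_reindex_apply, Equiv.symm_symm, Equiv.apply_symm_apply] at h2
    have h3 : ((integralBasis K).repr (a : K)) i = (((RingOfIntegers.basis K).repr a i : ℤ) : ℚ) := by
      have := integralBasis_repr_apply K a i
      simpa using this
    have h4 : ‖((((integralBasis K).repr (a : K)) i : ℚ) : ℂ)‖ = |((((RingOfIntegers.basis K).repr a i : ℤ)) : ℝ)| := by
      rw [h3]
      push_cast
      rw [Complex.norm_intCast]
    have h5 : |((((RingOfIntegers.basis K).repr a i : ℤ)) : ℝ)| ≤ c * house (a : K) := by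
      rw [← h4]
      exact h2
    have h6 : c * house (a : K) ≤ max c 0 * house (a : K) :=
      mul_le_mul_of_nonneg_right (le_max_left _ _) (norm_nonneg _)
    linarith
  have hcard : Fintype.card (Free.ChooseBasisIndex ℤ (𝓞 K)) = finrank ℚ K := by
    rw [← finrank_eq_card_chooseBasisIndex, RingOfIntegers.rank]
  refine ⟨(2 * c + 3) ^ finrank ℚ K, by positivity, fun R hR => ?_⟩
  let B : Finset (Free.ChooseBasisIndex ℤ (𝓞 K) → ℤ) := Fintype.piFinset fun _ => Finset.Icc (-⌊c * R⌋) ⌊c * R⌋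
  have hmaps : Set.MapsTo (fun a : 𝓞 K => fun i => (RingOfIntegers.basis K).repr a i) {a : 𝓞 K | house (a : K) ≤ R}
      (B : Set (Free.ChooseBasisIndex ℤ (𝓞 K) → ℤ)) := by
    intro a ha
    rw [Finset.mem_coe, Fintype.mem_piFinset]
    intro i
    have h1 := (hc a i).trans (mul_le_mul_of_nonneg_left ha hc0)
    have h2 := abs_le.1 h1
    rw [Finset.mem_Icc]
    refine ⟨?_, Int.le_floor.2 h2.2⟩
    have h3 : -((RingOfIntegers.basis K).repr a i) ≤ ⌊c * R⌋ := by
      apply Int.le_floor.2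
      push_cast
      linarith [h2.1]
    linarith
  have hinj : Set.InjOn (fun a : 𝓞 K => fun i => (RingOfIntegers.basis K).repr a i) {a : 𝓞 K | house (a : K) ≤ R} := by
    intro a _ b _ hab
    apply (RingOfIntegers.basis K).repr.injective
    ext i
    exact congrFun hab i
  refine ⟨Set.Finite.of_injOn hmaps hinj (Finset.finite_toSet B), ?_⟩
  have h1 := Set.ncard_le_ncard_of_injOn _ hmaps hinj (Finset.finite_toSet B)
  have hBc : B.card = (Finset.Icc (-⌊c * R⌋) ⌊c * R⌋).card ^ finrank ℚ K := by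
    rw [← hcard]
    simp [B]
  rw [Set.ncard_coe_finset, hBc] at h1
  have h2 : (((Finset.Icc (-⌊c * R⌋) ⌊c * R⌋).card : ℕ) : ℝ) ≤ (2 * c + 3) * R := by
    have hcR : 0 ≤ c * R := mul_nonneg hc0 (by linarith)
    have hf : 0 ≤ ⌊c * R⌋ := Int.floor_nonneg.2 hcR
    rw [Int.card_Icc]
    have h3 : (((⌊c * R⌋ + 1 - -⌊c * R⌋).toNat : ℕ) : ℝ) = 2 * (⌊c * R⌋ : ℝ) + 1 := by
      have h4 : (((⌊c * R⌋ + 1 - -⌊c * R⌋).toNat : ℕ) : ℤ) = 2 * ⌊c * R⌋ + 1 := by
        rw [Int.toNat_of_nonneg (by linarith)]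
        ring
      exact_mod_cast h4
    rw [h3]
    have h5 := Int.floor_le (c * R)
    nlinarith
  calc (({a : 𝓞 K | house (a : K) ≤ R}.ncard : ℕ) : ℝ) ≤ (((Finset.Icc (-⌊c * R⌋) ⌊c * R⌋).card ^ finrank ℚ K : ℕ) : ℝ) := by
        exact_mod_cast h1
    _ = (((Finset.Icc (-⌊c * R⌋) ⌊c * R⌋).card : ℕ) : ℝ) ^ finrank ℚ K := by push_cast; rfl
    _ ≤ ((2 * c + 3) * R) ^ finrank ℚ K := pow_le_pow_left₀ (Nat.cast_nonneg _) h2 _
    _ = _ := mul_pow _ _ _

end Pool.Agent.D0H63.MR
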