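import Pool.Agent.D0H63.MR.Lev
import Pool.Agent.D0H63.MR.NF
import Pool.Agent.N251.LF.Fields
import Pool.Agent.Y890.MV.Main

set_option autoImplicit false

/-! Exceptional points on few hypersurfaces and the approximations of complex vectors by points over number fields. -/

namespace Pool.Agent.D0H63.MR

open Filter Set MeasureTheory NumberField
open scoped ENNReal
open Pool.Agent.Y890.MV (InnerM)
open Pool.Agent.Y124 (Cov)

/-- the step from the counts to the approximations -/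
theorem near_core {X : Type} [Fintype X] (U : Set (X → ℂ)) (hU : IsOpen U) (ω : ℕ → ℕ)
    (hω : Tendsto ω atTop atTop) {a σ : ℝ} (ha : 0 ≤ a) (hσ : 0 < σ)
    (S : ∀ K : IntermediateField ℚ ℂ, ℕ → Set (X → K))
    (Gen : IntermediateField ℚ ℂ → ℕ → (X → ℂ) → Prop)
    (H : ∀ (K : IntermediateField ℚ ℂ) [NumberField K] (ε : ℝ), 0 < ε → ∃ C : ℝ, ∀ᶠ n : ℕ in atTop,
      {e : X → K | e ∈ S K n ∧ (fun j => (e j : ℂ)) ∈ InnerM U (ω n) ∧ ¬ Gen K n (fun j => (e j : ℂ))}.Finite ∧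
      ({e : X → K | e ∈ S K n ∧ (fun j => (e j : ℂ)) ∈ InnerM U (ω n) ∧ ¬ Gen K n (fun j => (e j : ℂ))}.ncard : ℝ) ≤
        C * ((2 : ℝ) ^ n) ^ (a * Module.finrank ℚ K + ε)) :
    ∃ E : Set (X → ℂ), dimH E ≤ ENNReal.ofReal (a / σ) ∧ ∀ ξ ∈ U, ξ ∉ E →
      ∀ (K : IntermediateField ℚ ℂ) [NumberField K] (C : ℝ), ∀ᶠ n : ℕ in atTop, ∀ e ∈ S K n,
        (∀ j, ‖ξ j - e j‖ ≤ C * ((2 : ℝ) ^ n) ^ (-(σ * Module.finrank ℚ K))) → Gen K n (fun j => (e j : ℂ)) := by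
  classical
  have hcf := Pool.Agent.N251.LF.countable_fields
  let F : (K : IntermediateField ℚ ℂ) → ℕ → Set (X → ℂ) := fun K n => (fun (e : X → K) j => (e j : ℂ)) ''
    {e : X → K | e ∈ S K n ∧ (fun j => (e j : ℂ)) ∈ InnerM U (ω n) ∧ ¬ Gen K n (fun j => (e j : ℂ))}
  let G : (K : IntermediateField ℚ ℂ) → Set (X → ℂ) := fun K => {y : X → ℂ | ¬ ∀ C : ℝ, ∀ᶠ n : ℕ in atTop,
    ∀ x ∈ F K n, ¬ dist y x ≤ C * ((2 : ℝ) ^ n) ^ (-(σ * Module.finrank ℚ K))}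
  have key : ∀ K : {K : IntermediateField ℚ ℂ // FiniteDimensional ℚ K}, dimH (G K.1) ≤ ENNReal.ofReal (a / σ) := by
    rintro ⟨K, hK⟩
    have hNF : NumberField K := { to_charZero := inferInstance, to_finiteDimensional := hK }
    have hN : (0 : ℝ) < Module.finrank ℚ K := by exact_mod_cast Module.finrank_pos
    have h1 := levels (F K) (s := a * Module.finrank ℚ K) (τ := σ * Module.finrank ℚ K) (by positivity) (by positivity)
      (fun ε hε => by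
        obtain ⟨C, hC⟩ := H K ε hε
        refine ⟨C, hC.mono fun n hn => ⟨hn.1.image _, ?_⟩⟩
        exact (Nat.cast_le.2 (Set.ncard_image_le hn.1)).trans hn.2)
    rwa [mul_div_mul_right _ _ hN.ne'] at h1
  obtain ⟨E, hE⟩ : ∃ E : Set (X → ℂ), E = ⋃ K : {K : IntermediateField ℚ ℂ // FiniteDimensional ℚ K}, G K.1 := ⟨_, rfl⟩
  refine ⟨E, ?_, fun ξ hξ hξE K _ C => ?_⟩
  · rw [hE, dimH_iUnion]
    exact iSup_le key
  · have hfd : FiniteDimensional ℚ K := inferInstance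
    have h1 : ξ ∉ G K := by
      intro h
      apply hξE
      rw [hE]
      exact Set.mem_iUnion.2 ⟨⟨K, hfd⟩, h⟩
    rw [Set.mem_ofPred_eq, not_not] at h1
    obtain ⟨δ, hδ, hball⟩ := Metric.isOpen_iff.1 hU _ hξ
    have hN : (0 : ℝ) < Module.finrank ℚ K := by exact_mod_cast Module.finrank_pos
    have hτ : 0 < σ * (Module.finrank ℚ K : ℝ) := by positivity
    have hlim : Tendsto (fun n : ℕ => |C| * ((2 : ℝ) ^ n) ^ (-(σ * (Module.finrank ℚ K : ℝ)))) atTop (nhds 0) := by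
      have h2 : Tendsto (fun n : ℕ => ((2 : ℝ) ^ n) ^ (-(σ * (Module.finrank ℚ K : ℝ)))) atTop (nhds 0) :=
        (tendsto_rpow_neg_atTop hτ).comp (tendsto_pow_atTop_atTop_of_one_lt (by norm_num))
      simpa using h2.const_mul |C|
    obtain ⟨R, hR⟩ := exists_nat_ge (‖ξ‖ + δ + 2 / δ + 1)
    have h2δ : 0 < 2 / δ := by positivity
    have hn0 : 0 ≤ ‖ξ‖ := norm_nonneg _
    filter_upwards [h1 |C|, hlim.eventually (gt_mem_nhds (half_pos hδ)), hω.eventually_ge_atTop R]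
      with n hn1 hn2 hn3 e he hclose
    by_contra hbad
    have hRω : (R : ℝ) ≤ ω n := by exact_mod_cast hn3
    have hd0 : 0 ≤ |C| * ((2 : ℝ) ^ n) ^ (-(σ * (Module.finrank ℚ K : ℝ))) := by positivity
    have hdist : dist ξ (fun j => (e j : ℂ)) ≤ |C| * ((2 : ℝ) ^ n) ^ (-(σ * (Module.finrank ℚ K : ℝ))) := by
      rw [dist_pi_le_iff hd0]
      intro j
      rw [dist_eq_norm]
      exact (hclose j).trans (mul_le_mul_of_nonneg_right (le_abs_self C) (by positivity))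
    refine hn1 _ ⟨e, ⟨he, ⟨?_, ?_⟩, hbad⟩, rfl⟩ hdist
    · have h5 := norm_le_norm_add_norm_sub' (fun j => (e j : ℂ)) ξ
      rw [dist_comm, dist_eq_norm] at hdist
      linarith
    · refine Set.Subset.trans ?_ hball
      refine Metric.ball_subset_ball' ?_
      have h5 : ((ω n : ℕ) : ℝ)⁻¹ ≤ δ / 2 := by
        have h6 : 2 / δ ≤ (ω n : ℕ) := by linarith
        have h7 := inv_anti₀ h2δ h6
        rwa [inv_div] at h7
      rw [dist_comm] at hdist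
      linarith

/-- the points with coordinates `p j / q`, integers of house at most `T` -/
def Common {X : Type} (K : Type) [Field K] [NumberField K] (T : ℝ) : Set (X → K) :=
  {x | ∃ (q : 𝓞 K) (p : X → 𝓞 K), q ≠ 0 ∧ house (q : K) ≤ T ∧ ∀ j, house (p j : K) ≤ T ∧ x j = (p j : K) / q}

theorem common_ht {X : Type} {K : Type} [Field K] [NumberField K] {T : ℝ} {x : X → K} (hx : x ∈ Common K T) (j : X) :
    Pool.Agent.Y120.HtLe K T (x j) := by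
  obtain ⟨q, p, hq, hqT, hp⟩ := hx
  exact ⟨p j, q, hq, (hp j).1, hqT, (hp j).2⟩

theorem count_common {X : Type} [Fintype X] [DecidableEq X] [Nonempty X] (K : Type) [Field K] [NumberField K]
    (io : K →+* ℂ) : ∃ C : ℝ, 0 ≤ C ∧ ∀ (T : ℝ) (M : ℕ) (E : Set (X → K)), 1 ≤ T →
      Cov M M ((fun (e : X → K) j => io (e j)) '' E) → E ⊆ Common K T →
      E.Finite ∧ (E.ncard : ℝ) ≤ C * (M : ℝ) ^ 2 * T ^ ((Fintype.card X : ℝ) * Module.finrank ℚ K) := by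
  classical
  obtain ⟨C, hC0, hC⟩ := house_count K
  refine ⟨C ^ Fintype.card X, by positivity, fun T M E hT hcov hE => ?_⟩
  obtain ⟨hfin, hcard⟩ := hC T hT
  have hT0 : (0 : ℝ) < T := by linarith
  have hd : 1 ≤ Fintype.card X := Fintype.card_pos
  let B : 𝓞 K → Set K := fun q => (fun a : 𝓞 K => (a : K) / q) '' {a : 𝓞 K | house (a : K) ≤ T}
  have hBfin : ∀ q, (B q).Finite := fun q => hfin.image _
  have hBcard : ∀ q, ((B q).ncard : ℝ) ≤ C * T ^ Module.finrank ℚ K := fun q =>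
    (Nat.cast_le.2 (Set.ncard_image_le hfin)).trans hcard
  let Eq' : 𝓞 K → Set (X → K) := fun q => {x | x ∈ E ∧ ∀ j, x j ∈ B q}
  have hEq : ∀ q, (Eq' q).Finite ∧ ((Eq' q).ncard : ℝ) ≤ M * (M * (C * T ^ Module.finrank ℚ K) ^ (Fintype.card X - 1)) := by
    intro q
    obtain ⟨h1, h2⟩ := Pool.Agent.Y890.MV.cov_count (D := M) (m := M) io (B q) (hBfin q) (Eq' q) (fun s hs => hs.2)
      (hcov.mono le_rfl le_rfl (Set.image_mono fun x hx => hx.1))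
    refine ⟨h1, ?_⟩
    have h3 : ((Eq' q).ncard : ℝ) ≤ M * (M * ((B q).ncard : ℝ) ^ (Fintype.card X - 1)) := by exact_mod_cast h2
    refine h3.trans ?_
    have h4 : ((B q).ncard : ℝ) ^ (Fintype.card X - 1) ≤ (C * T ^ Module.finrank ℚ K) ^ (Fintype.card X - 1) :=
      pow_le_pow_left₀ (Nat.cast_nonneg _) (hBcard q) _
    gcongr
  have hsub : E ⊆ ⋃ q ∈ hfin.toFinset, Eq' q := by
    intro x hx
    obtain ⟨q, p, hq, hqT, hp⟩ := hE hx
    rw [Set.mem_iUnion₂]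
    refine ⟨q, ?_, hx, fun j => ⟨p j, (hp j).1, (hp j).2.symm⟩⟩
    rw [Set.Finite.mem_toFinset]
    exact hqT
  have hUfin : (⋃ q ∈ hfin.toFinset, Eq' q).Finite := Set.Finite.biUnion (Finset.finite_toSet _) fun q _ => (hEq q).1
  refine ⟨hUfin.subset hsub, ?_⟩
  have h1 := (Set.ncard_le_ncard hsub hUfin).trans (Finset.set_ncard_biUnion_le _ _)
  have h2 : ((∑ q ∈ hfin.toFinset, (Eq' q).ncard : ℕ) : ℝ) ≤
      C * T ^ Module.finrank ℚ K * (M * (M * (C * T ^ Module.finrank ℚ K) ^ (Fintype.card X - 1))) := by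
    push_cast
    refine (Finset.sum_le_sum fun q _ => (hEq q).2).trans ?_
    rw [Finset.sum_const, nsmul_eq_mul]
    refine mul_le_mul_of_nonneg_right ?_ (by positivity)
    rw [← Set.ncard_eq_toFinset_card _ hfin]
    exact hcard
  refine (Nat.cast_le.2 h1).trans (h2.trans (le_of_eq ?_))
  obtain ⟨d, hdd⟩ : ∃ d, Fintype.card X = d + 1 := ⟨Fintype.card X - 1, by omega⟩
  have h3 : T ^ (((Fintype.card X : ℕ) : ℝ) * (Module.finrank ℚ K : ℝ)) = (T ^ Module.finrank ℚ K) ^ (Fintype.card X) := by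
    rw [mul_comm, Real.rpow_mul hT0.le, Real.rpow_natCast, Real.rpow_natCast]
  rw [h3, hdd, Nat.add_sub_cancel, mul_pow, pow_succ, pow_succ]
  ring

theorem count_ht {X : Type} [Fintype X] [DecidableEq X] [Nonempty X] (K : Type) [Field K] [NumberField K]
    (io : K →+* ℂ) : ∃ C : ℝ, 0 ≤ C ∧ ∀ (T : ℝ) (M : ℕ) (E : Set (X → K)), 1 ≤ T →
      Cov M M ((fun (e : X → K) j => io (e j)) '' E) → (∀ x ∈ E, ∀ j, Pool.Agent.Y120.HtLe K T (x j)) →
      E.Finite ∧ (E.ncard : ℝ) ≤ C * (M : ℝ) ^ 2 * T ^ ((2 * ((Fintype.card X : ℝ) - 1)) * Module.finrank ℚ K) := by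
  classical
  obtain ⟨C, hC0, hC⟩ := house_count K
  refine ⟨(C ^ 2) ^ (Fintype.card X - 1), by positivity, fun T M E hT hcov hE => ?_⟩
  obtain ⟨hfin, hcard⟩ := hC T hT
  have hT0 : (0 : ℝ) < T := by linarith
  have hd : 1 ≤ Fintype.card X := Fintype.card_pos
  let B : Set K := (fun a : 𝓞 K × 𝓞 K => (a.1 : K) / a.2) '' ({a : 𝓞 K | house (a : K) ≤ T} ×ˢ {a : 𝓞 K | house (a : K) ≤ T})
  have hBfin : B.Finite := (hfin.prod hfin).image _
  have hBcard : (B.ncard : ℝ) ≤ (C * T ^ Module.finrank ℚ K) ^ 2 := by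
    have h1 : B.ncard ≤ {a : 𝓞 K | house (a : K) ≤ T}.ncard * {a : 𝓞 K | house (a : K) ≤ T}.ncard := by
      refine (Set.ncard_image_le (hfin.prod hfin)).trans ?_
      rw [Set.ncard_prod]
    have h2 : (B.ncard : ℝ) ≤ ({a : 𝓞 K | house (a : K) ≤ T}.ncard : ℝ) * ({a : 𝓞 K | house (a : K) ≤ T}.ncard : ℝ) := by
      exact_mod_cast h1
    rw [sq]
    exact h2.trans (mul_le_mul hcard hcard (Nat.cast_nonneg _) (by positivity))
  obtain ⟨h1, h2⟩ := Pool.Agent.Y890.MV.cov_count (D := M) (m := M) io B hBfin E (fun s hs j => by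
    obtain ⟨x, y, hy, hx1, hy1, he⟩ := hE s hs j
    exact ⟨(x, y), ⟨hx1, hy1⟩, he.symm⟩) hcov
  refine ⟨h1, ?_⟩
  have h3 : (E.ncard : ℝ) ≤ M * (M * (B.ncard : ℝ) ^ (Fintype.card X - 1)) := by exact_mod_cast h2
  have h4 : (B.ncard : ℝ) ^ (Fintype.card X - 1) ≤ ((C * T ^ Module.finrank ℚ K) ^ 2) ^ (Fintype.card X - 1) :=
    pow_le_pow_left₀ (Nat.cast_nonneg _) hBcard _
  have h5 : (M : ℝ) * (M * (B.ncard : ℝ) ^ (Fintype.card X - 1)) ≤
      M * (M * ((C * T ^ Module.finrank ℚ K) ^ 2) ^ (Fintype.card X - 1)) := by gcongr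
  refine h3.trans (h5.trans (le_of_eq ?_))
  obtain ⟨d, hdd⟩ : ∃ d, Fintype.card X = d + 1 := ⟨Fintype.card X - 1, by omega⟩
  have h6 : T ^ ((2 * (((Fintype.card X : ℕ) : ℝ) - 1)) * (Module.finrank ℚ K : ℝ)) = ((T ^ Module.finrank ℚ K) ^ 2) ^ d := by
    rw [hdd]
    push_cast
    rw [add_sub_cancel_right, mul_comm, mul_comm (2 : ℝ), ← mul_assoc, mul_comm _ (d : ℝ), mul_assoc, mul_comm (d : ℝ),
      Real.rpow_mul hT0.le, Real.rpow_mul hT0.le, Real.rpow_natCast, Real.rpow_natCast]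
    norm_cast
  rw [h6, hdd, Nat.add_sub_cancel, mul_pow, mul_pow]
  ring

/-- the size of `T ^ (1 / ω T)` -/
theorem floor_sq {ω : ℝ → ℕ} (hω : Tendsto ω atTop atTop) {ε : ℝ} (hε : 0 < ε) : ∀ᶠ n : ℕ in atTop,
    ((⌊((2 : ℝ) ^ n) ^ ((ω ((2 : ℝ) ^ n) : ℝ)⁻¹)⌋₊ : ℕ) : ℝ) ^ 2 ≤ ((2 : ℝ) ^ n) ^ ε := by
  have h1 : Tendsto (fun n : ℕ => ω ((2 : ℝ) ^ n)) atTop atTop :=
    hω.comp (tendsto_pow_atTop_atTop_of_one_lt (by norm_num))
  filter_upwards [h1.eventually_ge_atTop (⌈2 / ε⌉₊ + 1)] with n hn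
  obtain ⟨w, hw⟩ : ∃ w, w = ω ((2 : ℝ) ^ n) := ⟨_, rfl⟩
  rw [← hw] at hn ⊢
  have hw0 : (0 : ℝ) < w := by
    have : 1 ≤ w := by omega
    exact_mod_cast this
  have hwε : 2 / ε ≤ w := by
    have h5 : ((⌈2 / ε⌉₊ : ℕ) : ℝ) ≤ w := by exact_mod_cast (by omega : ⌈2 / ε⌉₊ ≤ w)
    exact (Nat.le_ceil _).trans h5
  have h2n : (1 : ℝ) ≤ 2 ^ n := one_le_pow₀ (by norm_num)
  have h3 : ((⌊((2 : ℝ) ^ n) ^ ((w : ℝ)⁻¹)⌋₊ : ℕ) : ℝ) ≤ ((2 : ℝ) ^ n) ^ ((w : ℝ)⁻¹) := Nat.floor_le (by positivity)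
  calc ((⌊((2 : ℝ) ^ n) ^ ((w : ℝ)⁻¹)⌋₊ : ℕ) : ℝ) ^ 2 ≤ (((2 : ℝ) ^ n) ^ ((w : ℝ)⁻¹)) ^ 2 :=
        pow_le_pow_left₀ (Nat.cast_nonneg _) h3 2
    _ = ((2 : ℝ) ^ n) ^ ((w : ℝ)⁻¹ * 2) := by
        rw [← Real.rpow_natCast, ← Real.rpow_mul (by positivity)]
        norm_num
    _ ≤ ((2 : ℝ) ^ n) ^ ε := by
        apply Real.rpow_le_rpow_of_exponent_le h2n
        rw [div_le_iff₀ hε] at hwε
        rw [mul_comm, ← div_eq_mul_inv, div_le_iff₀ hw0]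
        linarith

end Pool.Agent.D0H63.MR
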