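import Pool.Agent.D0H63.MR.Lev

set_option autoImplicit false

/-! Thin sets of coprime pairs and all the rational approximations of the points of a metric space. -/

namespace Pool.Agent.D0H63.MR

open Filter Set MeasureTheory
open scoped ENNReal

/-- pairs of integers of absolute value at most `B` -/
theorem pairs_fin (B : ℕ) (W : Set (ℤ × ℤ)) :
    {P : ℤ × ℤ | (IsCoprime P.1 P.2 ∧ |P.1| ≤ B ∧ |P.2| ≤ B) ∧ P ∈ W}.Finite := by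
  refine ((Set.finite_Icc (-(B : ℤ)) B).prod (Set.finite_Icc (-(B : ℤ)) B)).subset ?_
  rintro P ⟨⟨-, h1, h2⟩, -⟩
  exact ⟨abs_le.1 h1, abs_le.1 h2⟩

/-- If `W` contains at most `C B ^ s` coprime pairs of height at most `B`, then for all points `ξ` of the metric space `Y` but a set
of dimension at most `s / τ` only finitely many `(a, b)` in `W` satisfy `dist ξ (φ (a, b)) ≤ C max(|a|, |b|) ^ (-τ)`, for every `C`. -/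
theorem pairs_metric {Y : Type*} [MetricSpace Y] (φ : ℤ × ℤ → Y) (W : Set (ℤ × ℤ)) {s τ : ℝ} (hs : 0 ≤ s) (hτ : 0 < τ)
    (hW : ∃ C : ℝ, ∀ B : ℕ, 1 ≤ B →
      ({P : ℤ × ℤ | (IsCoprime P.1 P.2 ∧ |P.1| ≤ B ∧ |P.2| ≤ B) ∧ P ∈ W}.ncard : ℝ) ≤ C * (B : ℝ) ^ s) :
    dimH {ξ : Y | ¬ ∀ C : ℝ, {P : ℤ × ℤ | IsCoprime P.1 P.2 ∧
      dist ξ (φ P) ≤ C * ((max |P.1| |P.2| : ℤ) : ℝ) ^ (-τ) ∧ P ∈ W}.Finite} ≤ ENNReal.ofReal (s / τ) := by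
  classical
  obtain ⟨C₀, hC₀⟩ := hW
  let F : ℕ → Set Y := fun n => φ ''
    {P : ℤ × ℤ | (IsCoprime P.1 P.2 ∧ |P.1| ≤ (2 ^ (n + 1) : ℕ) ∧ |P.2| ≤ (2 ^ (n + 1) : ℕ)) ∧ P ∈ W}
  have h1 := levels F hs hτ (fun ε hε => ⟨|C₀| * (2 : ℝ) ^ s, Filter.Eventually.of_forall fun n => by
    refine ⟨(pairs_fin _ W).image _, ?_⟩
    have h1 : 1 ≤ 2 ^ (n + 1) := Nat.one_le_two_pow
    have h2 := hC₀ _ h1
    have h3 := Nat.cast_le (α := ℝ) |>.2 (Set.ncard_image_le (f := φ) (pairs_fin (2 ^ (n + 1)) W))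
    refine h3.trans (h2.trans ?_)
    have h2n : (1 : ℝ) ≤ 2 ^ n := one_le_pow₀ (by norm_num)
    have h4 : (((2 ^ (n + 1) : ℕ) : ℝ)) ^ s = (2 : ℝ) ^ s * ((2 : ℝ) ^ n) ^ s := by
      rw [← Real.mul_rpow (by positivity) (by positivity)]
      congr 1
      push_cast
      ring
    rw [h4]
    have h5 : ((2 : ℝ) ^ n) ^ s ≤ ((2 : ℝ) ^ n) ^ (s + ε) := Real.rpow_le_rpow_of_exponent_le h2n (by linarith)
    calc C₀ * ((2 : ℝ) ^ s * ((2 : ℝ) ^ n) ^ s) ≤ |C₀| * ((2 : ℝ) ^ s * ((2 : ℝ) ^ n) ^ s) :=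
          mul_le_mul_of_nonneg_right (le_abs_self C₀) (by positivity)
      _ ≤ |C₀| * ((2 : ℝ) ^ s * ((2 : ℝ) ^ n) ^ (s + ε)) := by gcongr
      _ = _ := by ring⟩)
  refine le_trans (dimH_mono ?_) h1
  intro ξ hξ hcon
  apply hξ
  intro C
  obtain ⟨n₀, hn₀⟩ := eventually_atTop.1 (hcon |C|)
  refine ((Set.finite_Icc (-((2 ^ n₀ : ℕ) : ℤ)) (2 ^ n₀ : ℕ)).prod
    (Set.finite_Icc (-((2 ^ n₀ : ℕ) : ℤ)) (2 ^ n₀ : ℕ))).subset ?_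
  rintro ⟨a, b⟩ ⟨hco, hclose, hPW⟩
  simp only at hco hclose hPW
  obtain ⟨H, hH⟩ : ∃ H : ℕ, (H : ℤ) = max |a| |b| := ⟨(max |a| |b|).toNat, Int.toNat_of_nonneg (le_max_of_le_left (abs_nonneg a))⟩
  have hHr : ((max |a| |b| : ℤ) : ℝ) = (H : ℝ) := by
    rw [← hH]
    rfl
  rw [hHr] at hclose
  have ha : |a| ≤ (H : ℤ) := hH ▸ le_max_left _ _
  have hb : |b| ≤ (H : ℤ) := hH ▸ le_max_right _ _
  rcases lt_or_ge H (2 ^ n₀) with hlt | hge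
  · have hlt' : (H : ℤ) ≤ ((2 ^ n₀ : ℕ) : ℤ) := by exact_mod_cast hlt.le
    exact ⟨abs_le.1 (ha.trans hlt'), abs_le.1 (hb.trans hlt')⟩
  · exfalso
    have hH0 : H ≠ 0 := by
      have : 1 ≤ 2 ^ n₀ := Nat.one_le_two_pow
      omega
    obtain ⟨n, hn⟩ : ∃ n, n = Nat.log 2 H := ⟨_, rfl⟩
    have h3 : 2 ^ n ≤ H := hn ▸ Nat.pow_log_le_self 2 hH0
    have h4 : H < 2 ^ (n + 1) := hn ▸ Nat.lt_pow_succ_log_self (by norm_num) H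
    have hn1 : n₀ ≤ n := by
      rw [hn]
      exact Nat.le_log_of_pow_le (by norm_num) hge
    have h4' : (H : ℤ) ≤ ((2 ^ (n + 1) : ℕ) : ℤ) := by exact_mod_cast h4.le
    refine hn₀ n hn1 (φ (a, b)) ⟨(a, b), ⟨⟨hco, ha.trans h4', hb.trans h4'⟩, hPW⟩, rfl⟩ (hclose.trans ?_)
    have h3' : (2 : ℝ) ^ n ≤ H := by exact_mod_cast h3
    have h7 : (H : ℝ) ^ (-τ) ≤ ((2 : ℝ) ^ n) ^ (-τ) := Real.rpow_le_rpow_of_nonpos (by positivity) h3' (by linarith)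
    calc C * (H : ℝ) ^ (-τ) ≤ |C| * (H : ℝ) ^ (-τ) := mul_le_mul_of_nonneg_right (le_abs_self C) (by positivity)
      _ ≤ |C| * ((2 : ℝ) ^ n) ^ (-τ) := mul_le_mul_of_nonneg_left h7 (abs_nonneg C)

end Pool.Agent.D0H63.MR
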