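import Pool.Agent.N84.MD.C
import Pool.Agent.N84.MD.D

set_option autoImplicit false

/-! Metric results: the numerators and the denominators of the good rational approximations of real vectors. -/

namespace Pool.Agent.D0H63.MR

open Filter Set MeasureTheory
open scoped ENNReal

/-- `Bad N` are sets of tuples `(q, p_1, …, p_k)` of natural numbers, increasing in `N`, with at most `C N ^ s` elements
with coordinates between `N / κ` and `κ N`. All vectors `ξ` with positive coordinates but a set of Hausdorff dimension at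
most `s / τ` satisfy: for all large `q` and all `p` with `|ξ_j - p_j / q| ≤ q ^ (-τ)` the tuple `(q, p)` is not in
`Bad q`. -/
theorem rat {k : ℕ} (Bad : ℕ → Set (Fin (k + 1) → ℕ)) (hmono : Monotone Bad) {s τ : ℝ} (hs : 0 ≤ s) (hτ : 0 < τ)
    (hBad : ∀ κ : ℕ, 1 ≤ κ → ∃ (C : ℝ) (N₀ : ℕ), ∀ N : ℕ, N₀ ≤ N →
      ({t : Fin (k + 1) → ℕ | (∀ j, N ≤ κ * t j ∧ t j ≤ κ * N) ∧ t ∈ Bad N}.ncard : ℝ) ≤ C * (N : ℝ) ^ s) :
    dimH {ξ : Fin k → ℝ | (∀ j, 0 < ξ j) ∧ ¬ ∀ᶠ q : ℕ in atTop, ∀ t : Fin (k + 1) → ℕ, t 0 = q →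
      (∀ j : Fin k, |ξ j - t j.succ / q| ≤ (q : ℝ) ^ (-τ)) → t ∉ Bad q} ≤ ENNReal.ofReal (s / τ) := by
  classical
  have hsub : {ξ : Fin k → ℝ | (∀ j, 0 < ξ j) ∧ ¬ ∀ᶠ q : ℕ in atTop, ∀ t : Fin (k + 1) → ℕ, t 0 = q →
      (∀ j : Fin k, |ξ j - t j.succ / q| ≤ (q : ℝ) ^ (-τ)) → t ∉ Bad q} ⊆
      ⋃ κ : ℕ, {ξ : Fin k → ℝ | (∀ j, 1 / ((κ : ℝ) + 1) ≤ ξ j ∧ ξ j ≤ (κ : ℝ) + 1) ∧
        ¬ ∀ᶠ q : ℕ in atTop, ∀ t : Fin (k + 1) → ℕ, t 0 = q →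
      (∀ j : Fin k, |ξ j - t j.succ / q| ≤ (q : ℝ) ^ (-τ)) → t ∉ Bad q} := by
    rintro ξ ⟨h1, h2⟩
    rw [Set.mem_iUnion]
    obtain ⟨κ, hκ⟩ := exists_nat_ge (∑ j, (ξ j + 1 / ξ j))
    have h3 : ∀ j, ξ j + 1 / ξ j ≤ κ := fun j =>
      (Finset.single_le_sum (fun i _ => add_nonneg (h1 i).le (one_div_nonneg.2 (h1 i).le)) (Finset.mem_univ j)).trans hκ
    refine ⟨κ, fun j => ⟨?_, ?_⟩, h2⟩
    · have h4 := h1 j
      have h5 : 1 / ξ j ≤ (κ : ℝ) + 1 := by linarith [h3 j]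
      rw [div_le_iff₀ h4] at h5
      rw [div_le_iff₀ (by positivity)]
      linarith
    · have : 0 < 1 / ξ j := one_div_pos.2 (h1 j)
      linarith [h3 j]
  refine le_trans (dimH_mono hsub) ?_
  rw [dimH_iUnion]
  refine iSup_le fun κ => ?_
  obtain ⟨L, hL⟩ : ∃ L : ℕ, L = 4 * (κ + 1) := ⟨_, rfl⟩
  obtain ⟨C, N₀, hC⟩ := hBad L (by omega)
  -- the tuples of scale `T`
  let B : ℝ → Set (Fin (k + 1) → ℕ) := fun T => {t | (t 0 : ℝ) = T ∧ (N₀ : ℝ) ≤ T ∧ 1 ≤ T ∧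
    (∀ j, t 0 ≤ (2 * (κ + 1)) * t j ∧ t j ≤ (2 * (κ + 1)) * t 0) ∧ t ∈ Bad (t 0)}
  let E : ℝ → Set (Fin (k + 1) → ℕ) := fun T => {t | (N₀ : ℝ) ≤ T ∧ 1 ≤ T ∧
    (∀ j, ⌊T⌋₊ ≤ L * t j ∧ t j ≤ L * ⌊T⌋₊) ∧ t ∈ Bad ⌊T⌋₊}
  have hfin : ∀ T, (E T).Finite := by
    intro T
    refine (Set.Finite.pi (fun _ : Fin (k + 1) => Set.finite_Iic (L * ⌊T⌋₊))).subset ?_
    intro t ht j _
    exact (ht.2.2.1 j).2
  have hsc := Pool.Agent.N84.MD.scales (X := Fin k) (S := Fin (k + 1) → ℕ)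
    (fun t j => (t j.succ : ℝ) / t 0) B E hs hτ
    ⟨1, fun T T' hT h1 h2 => by
      rintro t ⟨ht0, htN, ht1, htc, htb⟩
      have hq : t 0 ≤ ⌊T'⌋₊ := Nat.le_floor (by rw [ht0]; exact h1)
      have hq2 : ⌊T'⌋₊ ≤ 2 * t 0 := by
        have h3 : ⌊T'⌋₊ ≤ ⌊((2 * t 0 : ℕ) : ℝ)⌋₊ := Nat.floor_le_floor (by push_cast; rw [ht0]; exact h2)
        rwa [Nat.floor_natCast] at h3
      refine ⟨htN.trans h1, ht1.trans h1, fun j => ⟨?_, ?_⟩, hmono hq htb⟩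
      · have := (htc j).1
        rw [hL]
        nlinarith
      · have := (htc j).2
        rw [hL]
        nlinarith⟩
    ⟨|C| + 1, fun T hT => by
      refine ⟨hfin T, ?_⟩
      have hT0 : 0 ≤ T := by linarith
      by_cases hN : (N₀ : ℝ) ≤ T
      · have h1 : N₀ ≤ ⌊T⌋₊ := Nat.le_floor hN
        have hsubE : E T ⊆ {t : Fin (k + 1) → ℕ | (∀ j, ⌊T⌋₊ ≤ L * t j ∧ t j ≤ L * ⌊T⌋₊) ∧ t ∈ Bad ⌊T⌋₊} :=
          fun t ht => ⟨ht.2.2.1, ht.2.2.2⟩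
        have hfin2 : {t : Fin (k + 1) → ℕ | (∀ j, ⌊T⌋₊ ≤ L * t j ∧ t j ≤ L * ⌊T⌋₊) ∧ t ∈ Bad ⌊T⌋₊}.Finite := by
          refine (Set.Finite.pi (fun _ : Fin (k + 1) => Set.finite_Iic (L * ⌊T⌋₊))).subset ?_
          intro t ht j _
          exact (ht.1 j).2
        have h2 : ((E T).ncard : ℝ) ≤ C * (⌊T⌋₊ : ℝ) ^ s := by
          refine le_trans ?_ (hC ⌊T⌋₊ h1)
          exact_mod_cast Set.ncard_le_ncard hsubE hfin2
        refine h2.trans ?_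
        have h3 : ((⌊T⌋₊ : ℝ)) ^ s ≤ T ^ s := Real.rpow_le_rpow (Nat.cast_nonneg _) (Nat.floor_le hT0) hs
        have h4 : 0 ≤ ((⌊T⌋₊ : ℝ)) ^ s := by positivity
        calc C * ((⌊T⌋₊ : ℝ)) ^ s ≤ |C| * ((⌊T⌋₊ : ℝ)) ^ s := mul_le_mul_of_nonneg_right (le_abs_self C) h4
          _ ≤ |C| * T ^ s := mul_le_mul_of_nonneg_left h3 (abs_nonneg C)
          _ ≤ _ := by
            have : 0 ≤ T ^ s := by positivity
            nlinarith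
      · have hE : E T = ∅ := by
          rw [Set.eq_empty_iff_forall_notMem]
          rintro t ⟨h1, -⟩
          exact hN h1
        rw [hE, Set.ncard_empty]
        push_cast
        positivity⟩
  refine le_trans (dimH_mono ?_) hsc
  rintro ξ ⟨h1, h2⟩ h3
  apply h2
  have hlim : Tendsto (fun N : ℕ => ((N : ℝ)) ^ (-τ)) atTop (nhds 0) :=
    (tendsto_rpow_neg_atTop hτ).comp tendsto_natCast_atTop_atTop
  have hε : (0 : ℝ) < 1 / (2 * ((κ : ℝ) + 1)) := by positivity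
  have h4 : ∀ᶠ q : ℕ in atTop, ∀ e ∈ B (q : ℝ), ¬ ∀ i, |ξ i - (e i.succ : ℝ) / e 0| ≤ (q : ℝ) ^ (-τ) :=
    tendsto_natCast_atTop_atTop.eventually h3
  filter_upwards [h4, hlim.eventually (gt_mem_nhds hε), eventually_ge_atTop (max N₀ 1)] with q hq hq1 hq2
  intro t ht0 htn htb
  have hq3 : 1 ≤ q := (le_max_right _ _).trans hq2
  have hq0 : (0 : ℝ) < q := by exact_mod_cast hq3
  refine hq t ⟨by exact_mod_cast ht0, by exact_mod_cast (le_max_left _ _).trans hq2, by exact_mod_cast hq3, ?_, ?_⟩ ?_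
  · intro j
    refine Fin.cases ?_ (fun i => ?_) j
    · constructor <;> nlinarith [Nat.zero_le (t 0), Nat.zero_le κ]
    · have h5 := abs_le.1 ((htn i).trans hq1.le)
      obtain ⟨h6, h7⟩ := h1 i
      have h8 : 1 / (2 * ((κ : ℝ) + 1)) * 2 = 1 / ((κ : ℝ) + 1) := by field_simp
      have h9 : (1 : ℝ) / (2 * ((κ : ℝ) + 1)) ≤ 1 := by
        rw [div_le_one (by positivity)]
        have := Nat.cast_nonneg (α := ℝ) κ
        linarith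
      rw [ht0]
      constructor
      · have h10 : 1 / (2 * ((κ : ℝ) + 1)) ≤ (t i.succ : ℝ) / q := by linarith [h5.2]
        rw [div_le_div_iff₀ (by positivity) hq0, one_mul] at h10
        have h11 : (q : ℝ) ≤ ((2 * (κ + 1) * t i.succ : ℕ) : ℝ) := by push_cast; linarith
        exact_mod_cast h11
      · have h10 : (t i.succ : ℝ) / q ≤ 2 * ((κ : ℝ) + 1) := by
          have := Nat.cast_nonneg (α := ℝ) κ
          linarith [h5.1]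
        rw [div_le_iff₀ hq0] at h10
        exact_mod_cast h10
  · rw [ht0]
    exact htb
  · intro i
    rw [ht0]
    exact htn i

/-- almost all real vectors, for `s < τ k` -/
theorem rat_ae {k : ℕ} (Bad : ℕ → Set (Fin (k + 1) → ℕ)) (hmono : Monotone Bad) {s τ : ℝ} (hs : 0 ≤ s) (hτ : 0 < τ)
    (hBad : ∀ κ : ℕ, 1 ≤ κ → ∃ (C : ℝ) (N₀ : ℕ), ∀ N : ℕ, N₀ ≤ N →
      ({t : Fin (k + 1) → ℕ | (∀ j, N ≤ κ * t j ∧ t j ≤ κ * N) ∧ t ∈ Bad N}.ncard : ℝ) ≤ C * (N : ℝ) ^ s)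
    (hlt : s < τ * k) :
    ∀ᵐ ξ : Fin k → ℝ, (∀ j, 0 < ξ j) → ∀ᶠ q : ℕ in atTop, ∀ t : Fin (k + 1) → ℕ, t 0 = q →
      (∀ j : Fin k, |ξ j - t j.succ / q| ≤ (q : ℝ) ^ (-τ)) → t ∉ Bad q := by
  have h1 := Pool.Agent.N84.MD.null_of_dim (rat Bad hmono hs hτ hBad) (div_nonneg hs hτ.le)
    (by rw [div_lt_iff₀ hτ, mul_comm]; exact hlt)
  rw [ae_iff]
  refine measure_mono_null ?_ h1
  intro ξ hξ
  simp only [Set.mem_ofPred_eq, Classical.not_imp] at hξ ⊢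
  exact hξ

end Pool.Agent.D0H63.MR
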