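import Pool.Agent.D0H63.MR.Rat
import Pool.Agent.N84.MD.B

set_option autoImplicit false

/-! Rational approximations: arbitrary constants, limit of the exponents. -/

namespace Pool.Agent.D0H63.MR

open Filter Set MeasureTheory
open scoped ENNReal

theorem rat_const {k : ℕ} (W : ℝ → Set (Fin (k + 1) → ℕ)) {s τ : ℝ} (hs : 0 ≤ s) (hτ : 0 < τ)
    (hW : ∀ δ : ℝ, 0 < δ → δ ≤ 1 → ∀ κ : ℕ, 1 ≤ κ → ∃ (C : ℝ) (N₀ : ℕ), ∀ N : ℕ, N₀ ≤ N →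
      ({t : Fin (k + 1) → ℕ | (∀ j, N ≤ κ * t j ∧ t j ≤ κ * N) ∧ t ∈ W δ}.ncard : ℝ) ≤ C * (N : ℝ) ^ (s + δ)) :
    dimH {ξ : Fin k → ℝ | (∀ j, 0 < ξ j) ∧ ¬ ∃ δ : ℝ, 0 < δ ∧ δ ≤ 1 ∧ ∀ C : ℝ, ∀ᶠ q : ℕ in atTop,
      ∀ t : Fin (k + 1) → ℕ, t 0 = q → (∀ j : Fin k, |ξ j - t j.succ / q| ≤ C * (q : ℝ) ^ (-τ)) → t ∉ W δ} ≤
      ENNReal.ofReal (s / τ) := by
  refine Pool.Agent.N84.MD.dim_le_of_forall (div_nonneg hs hτ.le) fun D hD => ?_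
  have hD0 : 0 < D := lt_of_le_of_lt (div_nonneg hs hτ.le) hD
  rw [div_lt_iff₀ hτ] at hD
  -- `s + δ ≤ D τ'`
  obtain ⟨η, hη⟩ : ∃ η : ℝ, η = D * τ - s := ⟨_, rfl⟩
  have hη0 : 0 < η := by rw [hη]; linarith
  obtain ⟨δ, hδ⟩ : ∃ δ : ℝ, δ = min 1 (η / 2) := ⟨_, rfl⟩
  have hδ0 : 0 < δ := by rw [hδ]; exact lt_min one_pos (by linarith)
  have hδ1 : δ ≤ 1 := by rw [hδ]; exact min_le_left _ _
  have hδ2 : δ ≤ η / 2 := by rw [hδ]; exact min_le_right _ _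
  obtain ⟨τ', hτ'⟩ : ∃ τ' : ℝ, τ' = τ - min (τ / 2) (η / (2 * D)) := ⟨_, rfl⟩
  have hm0 : 0 < min (τ / 2) (η / (2 * D)) := lt_min (by linarith) (by positivity)
  have hm1 : min (τ / 2) (η / (2 * D)) ≤ τ / 2 := min_le_left _ _
  have hm2 : min (τ / 2) (η / (2 * D)) ≤ η / (2 * D) := min_le_right _ _
  have hτ'0 : 0 < τ' := by rw [hτ']; linarith
  have hτ'1 : τ' < τ := by rw [hτ']; linarith
  have hle : (s + δ) / τ' ≤ D := by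
    rw [div_le_iff₀ hτ'0]
    have h1 : D * min (τ / 2) (η / (2 * D)) ≤ η / 2 := by
      calc D * min (τ / 2) (η / (2 * D)) ≤ D * (η / (2 * D)) := mul_le_mul_of_nonneg_left hm2 hD0.le
        _ = η / 2 := by field_simp
    rw [hτ', mul_sub]
    linarith
  have h1 := rat (fun _ => W δ) monotone_const (s := s + δ) (τ := τ') (by linarith) hτ'0 (hW δ hδ0 hδ1)
  refine (dimH_mono ?_).trans (h1.trans (ENNReal.ofReal_le_ofReal hle))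
  rintro ξ ⟨h2, h3⟩
  refine ⟨h2, fun h4 => h3 ⟨δ, hδ0, hδ1, fun C => ?_⟩⟩
  have h5 : ∀ᶠ q : ℕ in atTop, C * (q : ℝ) ^ (-τ) ≤ (q : ℝ) ^ (-τ') := by
    have h6 : Tendsto (fun q : ℕ => (q : ℝ) ^ (τ - τ')) atTop atTop :=
      (tendsto_rpow_atTop (by linarith)).comp tendsto_natCast_atTop_atTop
    filter_upwards [h6.eventually_ge_atTop C, eventually_ge_atTop 1] with q hq hq1
    have hq0 : (0 : ℝ) < q := by exact_mod_cast (by omega : 0 < q)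
    calc C * (q : ℝ) ^ (-τ) ≤ (q : ℝ) ^ (τ - τ') * (q : ℝ) ^ (-τ) :=
          mul_le_mul_of_nonneg_right hq (Real.rpow_nonneg hq0.le _)
      _ = (q : ℝ) ^ (-τ') := by
        rw [← Real.rpow_add hq0]
        congr 1
        ring
  filter_upwards [h4, h5] with q hq hq5 t ht0 htn
  exact hq t ht0 fun j => (htn j).trans hq5

end Pool.Agent.D0H63.MR
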