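import Pool.Agent.D0H63.MR.NearPair
import Pool.Agent.D0H63.MR.HouseHt

set_option autoImplicit false

/-! Numbers `Z x` which satisfy approximate relations for few `x` only (few hypersurfaces, over every number field), at the
approximations of real or complex vectors over all number fields. -/

namespace Pool.Agent.D0H63.MR

open Filter Set MeasureTheory NumberField MvPolynomial
open scoped ENNReal
open Pool.Agent.Y124 (Cov)

section

variable {𝕜 : Type} [RCLike 𝕜]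

theorem countable_fields' : Countable {K : IntermediateField ℚ 𝕜 // FiniteDimensional ℚ K} := by
  have h1 : Countable {x : 𝕜 // IsAlgebraic ℚ x} := (Algebraic.countable ℚ 𝕜).to_subtype
  have h2 : ∀ K : {K : IntermediateField ℚ 𝕜 // FiniteDimensional ℚ K},
      ∃ x : {x : 𝕜 // IsAlgebraic ℚ x}, IntermediateField.adjoin ℚ {(x : 𝕜)} = K.1 := by
    rintro ⟨K, hK⟩
    obtain ⟨a, ha⟩ := @Field.exists_primitive_element ℚ K _ _ K.algebra' hK inferInstance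
    refine ⟨⟨(a : 𝕜), ?_⟩, ?_⟩
    · exact (Algebra.IsAlgebraic.isAlgebraic (R := ℚ) a).algebraMap
    · have h3 := congr_arg IntermediateField.lift ha
      rw [IntermediateField.lift_top, IntermediateField.lift_adjoin_simple] at h3
      exact h3
  choose f hf using h2
  refine Function.Injective.countable (f := f) fun K L hKL => ?_
  apply Subtype.ext
  rw [← hf K, ← hf L, hKL]

theorem nf_sup' (K L : IntermediateField ℚ 𝕜) [NumberField K] [NumberField L] : NumberField ↥(K ⊔ L) := by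
  have h1 : FiniteDimensional ℚ ↥(K ⊔ L) := IntermediateField.finiteDimensional_sup K L
  exact { to_charZero := inferInstance, to_finiteDimensional := h1 }

/-- the step from the counts to the approximations -/
theorem near_core' {X : Type} [Fintype X] (U : Set (X → 𝕜)) (hU : IsOpen U) {a σ : ℝ} (ha : 0 ≤ a) (hσ : 0 < σ)
    (S : ∀ K : IntermediateField ℚ 𝕜, ℕ → Set (X → K))
    (Gen : ∀ K : IntermediateField ℚ 𝕜, ℕ → (X → K) → Prop)
    (H : ∀ (K : IntermediateField ℚ 𝕜) [NumberField K] (ε : ℝ), 0 < ε → ∃ C : ℝ, ∀ᶠ n : ℕ in atTop,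
      {e : X → K | e ∈ S K n ∧ (fun j => (e j : 𝕜)) ∈ U ∧ ¬ Gen K n e}.Finite ∧
      ({e : X → K | e ∈ S K n ∧ (fun j => (e j : 𝕜)) ∈ U ∧ ¬ Gen K n e}.ncard : ℝ) ≤
        C * ((2 : ℝ) ^ n) ^ (a * Module.finrank ℚ K + ε)) :
    ∃ E : Set (X → 𝕜), dimH E ≤ ENNReal.ofReal (a / σ) ∧ ∀ ξ ∈ U, ξ ∉ E →
      ∀ (K : IntermediateField ℚ 𝕜) [NumberField K] (C : ℝ), ∀ᶠ n : ℕ in atTop, ∀ e ∈ S K n,
        (∀ j, ‖ξ j - e j‖ ≤ C * ((2 : ℝ) ^ n) ^ (-(σ * Module.finrank ℚ K))) → Gen K n e := by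
  classical
  have hcf := countable_fields' (𝕜 := 𝕜)
  let F : (K : IntermediateField ℚ 𝕜) → ℕ → Set (X → 𝕜) := fun K n => (fun (e : X → K) j => (e j : 𝕜)) ''
    {e : X → K | e ∈ S K n ∧ (fun j => (e j : 𝕜)) ∈ U ∧ ¬ Gen K n e}
  let G : (K : IntermediateField ℚ 𝕜) → Set (X → 𝕜) := fun K => {y : X → 𝕜 | ¬ ∀ C : ℝ, ∀ᶠ n : ℕ in atTop,
    ∀ x ∈ F K n, ¬ dist y x ≤ C * ((2 : ℝ) ^ n) ^ (-(σ * Module.finrank ℚ K))}
  have key : ∀ K : {K : IntermediateField ℚ 𝕜 // FiniteDimensional ℚ K}, dimH (G K.1) ≤ ENNReal.ofReal (a / σ) := by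
    rintro ⟨K, hK⟩
    have hNF : NumberField K := { to_charZero := inferInstance, to_finiteDimensional := hK }
    have hN : (0 : ℝ) < Module.finrank ℚ K := by exact_mod_cast Module.finrank_pos
    have h1 := levels (F K) (s := a * Module.finrank ℚ K) (τ := σ * Module.finrank ℚ K) (by positivity) (by positivity)
      (fun ε hε => by
        obtain ⟨C, hC⟩ := H K ε hε
        refine ⟨C, hC.mono fun n hn => ⟨hn.1.image _, ?_⟩⟩
        exact (Nat.cast_le.2 (Set.ncard_image_le hn.1)).trans hn.2)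
    rwa [mul_div_mul_right _ _ hN.ne'] at h1
  obtain ⟨E, hE⟩ : ∃ E : Set (X → 𝕜), E = ⋃ K : {K : IntermediateField ℚ 𝕜 // FiniteDimensional ℚ K}, G K.1 := ⟨_, rfl⟩
  refine ⟨E, ?_, fun ξ hξ hξE K _ C => ?_⟩
  · rw [hE, dimH_iUnion]
    exact iSup_le key
  · have hfd : FiniteDimensional ℚ K := inferInstance
    have h1 : ξ ∉ G K := by
      intro h
      apply hξE
      rw [hE]
      exact Set.mem_iUnion.2 ⟨⟨K, hfd⟩, h⟩
    rw [Set.mem_ofPred_eq, not_not] at h1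
    obtain ⟨δ, hδ, hball⟩ := Metric.isOpen_iff.1 hU _ hξ
    have hN : (0 : ℝ) < Module.finrank ℚ K := by exact_mod_cast Module.finrank_pos
    have hτ : 0 < σ * (Module.finrank ℚ K : ℝ) := by positivity
    have hlim : Tendsto (fun n : ℕ => |C| * ((2 : ℝ) ^ n) ^ (-(σ * (Module.finrank ℚ K : ℝ)))) atTop (nhds 0) := by
      have h2 : Tendsto (fun n : ℕ => ((2 : ℝ) ^ n) ^ (-(σ * (Module.finrank ℚ K : ℝ)))) atTop (nhds 0) :=
        (tendsto_rpow_neg_atTop hτ).comp (tendsto_pow_atTop_atTop_of_one_lt (by norm_num))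
      simpa using h2.const_mul |C|
    filter_upwards [h1 |C|, hlim.eventually (gt_mem_nhds hδ)] with n hn1 hn2 e he hclose
    by_contra hbad
    have hd0 : 0 ≤ |C| * ((2 : ℝ) ^ n) ^ (-(σ * (Module.finrank ℚ K : ℝ))) := by positivity
    have hdist : dist ξ (fun j => (e j : 𝕜)) ≤ |C| * ((2 : ℝ) ^ n) ^ (-(σ * (Module.finrank ℚ K : ℝ))) := by
      rw [dist_pi_le_iff hd0]
      intro j
      rw [dist_eq_norm]
      exact (hclose j).trans (mul_le_mul_of_nonneg_right (le_abs_self C) (by positivity))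
    refine hn1 _ ⟨e, ⟨he, ?_, hbad⟩, rfl⟩ hdist
    apply hball
    rw [Metric.mem_ball, dist_comm]
    exact lt_of_le_of_lt hdist hn2

end

/-- Some nonzero polynomial of degree at most `d` in each variable, with coefficients in the integers of `L` all the
conjugates of which are at most `T ^ A`, takes at the numbers `z` a value of absolute value at most `T ^ (-B)`. -/
def RelatedAt {Y L : Type} [Field L] [NumberField L] (io : L →+* ℂ) (d : ℕ) (A B T : ℝ) (z : Y → ℂ) : Prop :=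
  ∃ P : MvPolynomial Y (𝓞 L), P ≠ 0 ∧ (∀ i, P.degreeOf i ≤ d) ∧ (∀ e, house ((P.coeff e : 𝓞 L) : L) ≤ T ^ A) ∧
    ‖MvPolynomial.eval₂ (io.comp (algebraMap (𝓞 L) L)) z P‖ ≤ T ^ (-B)

/-- relations over `L` are relations over every larger field -/
theorem related_up {Y L M : Type} [Field L] [NumberField L] [Field M] [NumberField M] (f : L →+* M) (io : L →+* ℂ)
    (io' : M →+* ℂ) (hio : io'.comp f = io) (d : ℕ) {A B R : ℝ} (hA : 0 ≤ A) (hR : 1 ≤ R) {z : Y → ℂ}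
    (hrel : RelatedAt io d A (B * Module.finrank ℚ M) R z) :
    ∃ P : MvPolynomial Y M, P ≠ 0 ∧ (∀ i, P.degreeOf i ≤ d) ∧
      (∀ e, Height.mulHeight₁ (P.coeff e) ≤ (R ^ Module.finrank ℚ M) ^ A) ∧
      ‖MvPolynomial.eval₂ io' z P‖ ≤ (R ^ Module.finrank ℚ M) ^ (-B) := by
  obtain ⟨P, hP0, hPd, hPc, hPv⟩ := hrel
  have hR0 : 0 ≤ R := by linarith
  refine ⟨P.map (f.comp (algebraMap (𝓞 L) L)), ?_, ?_, ?_, ?_⟩
  · intro h0
    apply hP0
    have hinj : Function.Injective (f.comp (algebraMap (𝓞 L) L)) := by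
      intro a b hab
      have h1 := f.injective hab
      exact RingOfIntegers.ext h1
    exact MvPolynomial.map_injective _ hinj (by rw [h0, map_zero])
  · intro i
    classical
    refine le_trans ?_ (hPd i)
    rw [MvPolynomial.degreeOf_def, MvPolynomial.degreeOf_def]
    exact Multiset.count_le_of_le i MvPolynomial.degrees_map_le
  · intro e
    rw [MvPolynomial.coeff_map]
    have h1 : (f.comp (algebraMap (𝓞 L) L)) (P.coeff e) =
        ((RingOfIntegers.mapRingHom f (P.coeff e) : 𝓞 M) : M) := rfl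
    rw [h1]
    have hRA : 1 ≤ R ^ A := Real.one_le_rpow hR hA
    refine (height_int_le _ (R ^ A) hRA ?_).trans (le_of_eq ?_)
    · refine Y120.house_le M (by linarith) fun φ => ?_
      exact (Y120.house_ge L ((P.coeff e : 𝓞 L) : L) (φ.comp f)).trans (hPc e)
    · rw [← Real.rpow_natCast, ← Real.rpow_natCast, ← Real.rpow_mul hR0, ← Real.rpow_mul hR0, mul_comm]
  · have h1 : MvPolynomial.eval₂ io' z (P.map (f.comp (algebraMap (𝓞 L) L))) =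
        MvPolynomial.eval₂ (io.comp (algebraMap (𝓞 L) L)) z P := by
      rw [MvPolynomial.eval₂_map, ← RingHom.comp_assoc, hio]
    rw [h1]
    refine hPv.trans (le_of_eq ?_)
    rw [← Real.rpow_natCast, ← Real.rpow_mul hR0]
    congr 1
    ring

/-- a cover with explicit bounds -/
theorem cov_of_field {X M : Type} [Field M] (io : M →+* ℂ) {D : ℕ} {c : ℝ} {E : Set (X → M)}
    {Φ : Finset (MvPolynomial X M)} (h1 : (Φ.card : ℝ) ≤ c) (h2 : ∀ R ∈ Φ, R ≠ 0 ∧ R.totalDegree ≤ D)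
    (h3 : ∀ x ∈ E, ∃ R ∈ Φ, MvPolynomial.eval x R = 0) :
    Cov (max D ⌊c⌋₊) (max D ⌊c⌋₊) ((fun (e : X → M) j => io (e j)) '' E) := by
  classical
  have hinj : Function.Injective io := io.injective
  refine ⟨Φ.image (MvPolynomial.map io), ?_, ?_, ?_⟩
  · refine Finset.card_image_le.trans (le_trans ?_ (le_max_right _ _))
    exact Nat.le_floor h1
  · intro P hP
    obtain ⟨R, hR, rfl⟩ := Finset.mem_image.1 hP
    refine ⟨fun h0 => (h2 R hR).1 (MvPolynomial.map_injective _ hinj (by rw [h0, map_zero])), ?_⟩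
    have h4 : (MvPolynomial.map io R).totalDegree ≤ R.totalDegree := by
      unfold MvPolynomial.totalDegree
      exact Finset.sup_mono (MvPolynomial.support_map_subset _ _)
    exact h4.trans ((h2 R hR).2.trans (le_max_left _ _))
  · rintro _ ⟨x, hx, rfl⟩
    obtain ⟨R, hR, h0⟩ := h3 x hx
    refine ⟨_, Finset.mem_image_of_mem _ hR, ?_⟩
    have h4 : MvPolynomial.eval (io ∘ x) (MvPolynomial.map io R) = io (MvPolynomial.eval x R) := by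
      rw [MvPolynomial.eval_map, MvPolynomial.eval₂_comp]
    have h5 : MvPolynomial.eval (io ∘ x) (MvPolynomial.map io R) = 0 := by rw [h4, h0, map_zero]
    exact h5

section

variable {𝕜 : Type} [RCLike 𝕜] {n : ℕ} {Y : Type}

/-- the numbers `Z` at the points of `U` over number fields satisfy approximate relations on few hypersurfaces only -/
def FewRelations (toC : 𝕜 →+* ℂ) (Z : (Fin n → 𝕜) → Y → ℂ) (U : Set (Fin n → 𝕜)) : Prop :=
  ∀ (M : IntermediateField ℚ 𝕜) [NumberField M] (d : ℕ) (A ε : ℝ), 0 < ε → ∃ (D : ℕ) (B C : ℝ), ∀ T : ℝ, 1 ≤ T →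
    ∃ Φ : Finset (MvPolynomial (Fin n) M), (Φ.card : ℝ) ≤ C * T ^ ε ∧ (∀ R ∈ Φ, R ≠ 0 ∧ R.totalDegree ≤ D) ∧
      ∀ x : Fin n → M, (fun l => (x l : 𝕜)) ∈ U → (∀ l, Height.mulHeight₁ (x l) ≤ T) →
        (∃ P : MvPolynomial Y M, P ≠ 0 ∧ (∀ i, P.degreeOf i ≤ d) ∧ (∀ e, Height.mulHeight₁ (P.coeff e) ≤ T ^ A) ∧
          ‖MvPolynomial.eval₂ (toC.comp (algebraMap M 𝕜)) (Z fun l => (x l : 𝕜)) P‖ ≤ T ^ (-B)) →
        ∃ R ∈ Φ, MvPolynomial.eval x R = 0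

/-- one set `U`, one field of coefficients, one degree, one exponent -/
theorem std_box (toC : 𝕜 →+* ℂ) (Z : (Fin n → 𝕜) → Y → ℂ) (U : Set (Fin n → 𝕜)) (hU : IsOpen U)
    (hZ : FewRelations toC Z U) {a : ℝ} (ha : 0 ≤ a)
    (S : ∀ (K : Type) [Field K] [NumberField K], ℝ → Set (Fin n → K))
    (hSht : ∀ (K : Type) [Field K] [NumberField K] (T : ℝ), ∀ x ∈ S K T, ∀ j, Y120.HtLe K T (x j))
    (hScount : ∀ (K : Type) [Field K] [NumberField K] (io : K →+* ℂ), ∃ C : ℝ, 0 ≤ C ∧ ∀ (T : ℝ) (M : ℕ)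
      (E : Set (Fin n → K)), 1 ≤ T → Cov M M ((fun (e : Fin n → K) j => io (e j)) '' E) → E ⊆ S K T →
        E.Finite ∧ (E.ncard : ℝ) ≤ C * (M : ℝ) ^ 2 * T ^ (a * Module.finrank ℚ K))
    (F : IntermediateField ℚ 𝕜) [NumberField F] (d : ℕ) (A : ℝ) (hA : 0 ≤ A) (ε₀ : ℝ) (hε₀ : 0 < ε₀) :
    ∃ B : (K : IntermediateField ℚ 𝕜) → ℝ, (∀ K, 0 ≤ B K) ∧ ∀ σ : ℝ, 0 < σ →
      ∃ E : Set (Fin n → 𝕜), dimH E ≤ ENNReal.ofReal ((a + ε₀) / σ) ∧ ∀ ξ ∈ U, ξ ∉ E →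
        ∀ (K : IntermediateField ℚ 𝕜) [NumberField K] (C : ℝ), ∀ᶠ m : ℕ in atTop,
          ∀ x ∈ {x : Fin n → K | ∀ _ : NumberField K, x ∈ S K ((2 : ℝ) ^ m)},
            (∀ j, ‖ξ j - (x j : 𝕜)‖ ≤ C * ((2 : ℝ) ^ m) ^ (-(σ * Module.finrank ℚ K))) →
              ¬ RelatedAt (toC.comp (algebraMap F 𝕜)) d A (B K) (2 ^ m) (Z fun l => (x l : 𝕜)) := by
  classical
  -- the exponents
  have key : ∀ K : {K : IntermediateField ℚ 𝕜 // FiniteDimensional ℚ K}, ∃ B : ℝ, 0 ≤ B ∧ ∃ (Dg : ℕ) (Cc : ℝ), 0 ≤ Cc ∧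
      ∀ m : ℕ, Cov (max Dg ⌊Cc * ((2 : ℝ) ^ m) ^ (ε₀ / 2)⌋₊) (max Dg ⌊Cc * ((2 : ℝ) ^ m) ^ (ε₀ / 2)⌋₊)
        ((fun (e : Fin n → K.1) j => (toC.comp (algebraMap K.1 𝕜)) (e j)) '' {x : Fin n → K.1 | ∀ _ : NumberField K.1,
          x ∈ S K.1 ((2 : ℝ) ^ m) ∧ (fun l => (x l : 𝕜)) ∈ U ∧
          RelatedAt (toC.comp (algebraMap F 𝕜)) d A B (2 ^ m) (Z fun l => (x l : 𝕜))}) := by
    rintro ⟨K, hK⟩
    have hNF : NumberField K := { to_charZero := inferInstance, to_finiteDimensional := hK }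
    have hM := nf_sup' K F
    have hfr : 0 < Module.finrank ℚ ↥(K ⊔ F) := Module.finrank_pos
    have hfr' : (0 : ℝ) < Module.finrank ℚ ↥(K ⊔ F) := by exact_mod_cast hfr
    obtain ⟨Dg, B, Cc, h⟩ := hZ (K ⊔ F) d A (ε₀ / 2 / Module.finrank ℚ ↥(K ⊔ F)) (by positivity)
    refine ⟨|B| * Module.finrank ℚ ↥(K ⊔ F), by positivity, Dg, |Cc|, abs_nonneg _, fun m => ?_⟩
    have h2m : (1 : ℝ) ≤ 2 ^ m := one_le_pow₀ (by norm_num)
    obtain ⟨R, hRdef⟩ : ∃ R : ℝ, R = 2 ^ m := ⟨_, rfl⟩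
    rw [← hRdef] at h2m ⊢
    have hR0 : 0 ≤ R := by linarith
    have hT1 : 1 ≤ R ^ Module.finrank ℚ ↥(K ⊔ F) := one_le_pow₀ h2m
    obtain ⟨Φ, h1, h2, h3⟩ := h _ hT1
    have e1 : (R ^ Module.finrank ℚ ↥(K ⊔ F)) ^ (ε₀ / 2 / Module.finrank ℚ ↥(K ⊔ F)) = R ^ (ε₀ / 2) := by
      rw [← Real.rpow_natCast, ← Real.rpow_mul hR0, mul_div_cancel₀ _ hfr'.ne']
    rw [e1] at h1
    have h1' : (Φ.card : ℝ) ≤ |Cc| * R ^ (ε₀ / 2) :=
      h1.trans (mul_le_mul_of_nonneg_right (le_abs_self _) (by positivity))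
    let fK : K →+* ↥(K ⊔ F) := (IntermediateField.inclusion (le_sup_left : K ≤ K ⊔ F)).toRingHom
    let fF : F →+* ↥(K ⊔ F) := (IntermediateField.inclusion (le_sup_right : F ≤ K ⊔ F)).toRingHom
    refine (cov_of_field (toC.comp (algebraMap ↥(K ⊔ F) 𝕜)) (E := {y : Fin n → ↥(K ⊔ F) | ∃ R ∈ Φ,
      MvPolynomial.eval y R = 0}) h1' h2 (fun x hx => hx)).mono le_rfl le_rfl ?_
    rintro _ ⟨x, hx, rfl⟩
    obtain ⟨hxS, hxK, hxR⟩ := hx hNF
    obtain ⟨P, hh2, hh3, hh4, hh5⟩ := related_up fF (toC.comp (algebraMap F 𝕜)) (toC.comp (algebraMap ↥(K ⊔ F) 𝕜)) rfl d hA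
      h2m hxR
    refine ⟨fun j => fK (x j), h3 _ hxK (fun j => ?_) ⟨P, hh2, hh3, hh4, hh5.trans ?_⟩, rfl⟩
    · obtain ⟨u, v, hv, hu, hv', he⟩ := htLe_map fK hR0 (hSht K R x hxS j)
      rw [he]
      exact height_pair_le u v hv R hu hv'
    · exact Real.rpow_le_rpow_of_exponent_le hT1 (neg_le_neg (le_abs_self B))
  choose B hB0 Dg Cc hCc hcov using key
  refine ⟨fun K => if h : FiniteDimensional ℚ K then B ⟨K, h⟩ else 0, fun K => ?_, fun σ hσ => ?_⟩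
  · by_cases h : FiniteDimensional ℚ K
    · simp only [dif_pos h]
      exact hB0 _
    · simp only [dif_neg h]
      exact le_rfl
  · refine near_core' U hU (a := a + ε₀) (by linarith) hσ (fun K m => {x | ∀ _ : NumberField K, x ∈ S K ((2 : ℝ) ^ m)})
      (fun K m x => ∀ h : FiniteDimensional ℚ K,
        ¬ RelatedAt (toC.comp (algebraMap F 𝕜)) d A (B ⟨K, h⟩) (2 ^ m) (Z fun l => (x l : 𝕜))) ?_ |>.imp
      fun E hE => ⟨hE.1, fun ξ hξ hξE K _ C => ?_⟩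
    · intro K _ ε hε
      have hfd : FiniteDimensional ℚ K := inferInstance
      obtain ⟨C, hC0, hC⟩ := hScount K (toC.comp (algebraMap K 𝕜))
      have hK1 : (1 : ℝ) ≤ Module.finrank ℚ K := by exact_mod_cast Module.finrank_pos
      refine ⟨C * (Dg ⟨K, hfd⟩ + Cc ⟨K, hfd⟩) ^ 2, Filter.Eventually.of_forall fun m => ?_⟩
      have h2m : (1 : ℝ) ≤ 2 ^ m := one_le_pow₀ (by norm_num)
      obtain ⟨M, hMdef⟩ : ∃ M : ℕ, M = max (Dg ⟨K, hfd⟩) ⌊Cc ⟨K, hfd⟩ * ((2 : ℝ) ^ m) ^ (ε₀ / 2)⌋₊ := ⟨_, rfl⟩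
      have hcov' := hcov ⟨K, hfd⟩ m
      rw [← hMdef] at hcov'
      obtain ⟨h3, h4⟩ := hC ((2 : ℝ) ^ m) M {e : Fin n → K | e ∈ {x | ∀ _ : NumberField K, x ∈ S K ((2 : ℝ) ^ m)} ∧
        (fun j => (e j : 𝕜)) ∈ U ∧ ¬ ∀ h : FiniteDimensional ℚ K,
          ¬ RelatedAt (toC.comp (algebraMap F 𝕜)) d A (B ⟨K, h⟩) (2 ^ m) (Z fun l => (e l : 𝕜))} h2m
        (hcov'.mono le_rfl le_rfl (Set.image_mono (by
          rintro e ⟨h5, h6, h7⟩ hNF
          push Not at h7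
          obtain ⟨h, hrel⟩ := h7
          exact ⟨h5 hNF, h6, hrel⟩)))
        (fun e he => he.1 inferInstance)
      refine ⟨h3, h4.trans ?_⟩
      have hX : (0 : ℝ) ≤ ((2 : ℝ) ^ m) ^ (ε₀ / 2) := by positivity
      have hX1 : (1 : ℝ) ≤ ((2 : ℝ) ^ m) ^ (ε₀ / 2) := Real.one_le_rpow h2m (by linarith)
      have hMle : (M : ℝ) ≤ (Dg ⟨K, hfd⟩ + Cc ⟨K, hfd⟩) * ((2 : ℝ) ^ m) ^ (ε₀ / 2) := by
        rw [hMdef, Nat.cast_max]
        have e1 := Nat.floor_le (mul_nonneg (hCc ⟨K, hfd⟩) hX)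
        have e2 : (0 : ℝ) ≤ (Dg ⟨K, hfd⟩ : ℝ) := Nat.cast_nonneg _
        refine max_le ?_ ?_
        · nlinarith [mul_nonneg (hCc ⟨K, hfd⟩) hX]
        · nlinarith [mul_nonneg e2 hX]
      have hsq : (M : ℝ) ^ 2 ≤ (Dg ⟨K, hfd⟩ + Cc ⟨K, hfd⟩) ^ 2 * ((2 : ℝ) ^ m) ^ ε₀ := by
        calc (M : ℝ) ^ 2 ≤ ((Dg ⟨K, hfd⟩ + Cc ⟨K, hfd⟩) * ((2 : ℝ) ^ m) ^ (ε₀ / 2)) ^ 2 :=
              pow_le_pow_left₀ (Nat.cast_nonneg _) hMle 2
          _ = (Dg ⟨K, hfd⟩ + Cc ⟨K, hfd⟩) ^ 2 * ((2 : ℝ) ^ m) ^ ε₀ := by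
              rw [mul_pow, ← Real.rpow_natCast (((2 : ℝ) ^ m) ^ (ε₀ / 2)) 2, ← Real.rpow_mul (by positivity)]
              norm_num
      have hexp : ((2 : ℝ) ^ m) ^ ε₀ * ((2 : ℝ) ^ m) ^ (a * (Module.finrank ℚ K : ℝ)) ≤
          ((2 : ℝ) ^ m) ^ ((a + ε₀) * (Module.finrank ℚ K : ℝ) + ε) := by
        rw [← Real.rpow_add (by positivity)]
        apply Real.rpow_le_rpow_of_exponent_le h2m
        nlinarith
      calc C * (M : ℝ) ^ 2 * ((2 : ℝ) ^ m) ^ (a * (Module.finrank ℚ K : ℝ)) ≤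
            C * ((Dg ⟨K, hfd⟩ + Cc ⟨K, hfd⟩) ^ 2 * ((2 : ℝ) ^ m) ^ ε₀) * ((2 : ℝ) ^ m) ^ (a * (Module.finrank ℚ K : ℝ)) := by
              gcongr
        _ = C * (Dg ⟨K, hfd⟩ + Cc ⟨K, hfd⟩) ^ 2 * (((2 : ℝ) ^ m) ^ ε₀ * ((2 : ℝ) ^ m) ^ (a * (Module.finrank ℚ K : ℝ))) := by
              ring
        _ ≤ _ := mul_le_mul_of_nonneg_left hexp (by positivity)
    · have hfd : FiniteDimensional ℚ K := inferInstance
      filter_upwards [hE.2 ξ hξ hξE K C] with m hm x hx hclose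
      simp only [dif_pos hfd]
      exact hm x hx hclose hfd

/-- all sets `U i` together, all fields, degrees and sizes -/
theorem std_kind (toC : 𝕜 →+* ℂ) (Z : (Fin n → 𝕜) → Y → ℂ) {ι : Type} [Countable ι] (U : ι → Set (Fin n → 𝕜))
    (hU : ∀ i, IsOpen (U i)) (hZ : ∀ i, FewRelations toC Z (U i)) {a : ℝ} (ha : 0 ≤ a)
    (S : ∀ (K : Type) [Field K] [NumberField K], ℝ → Set (Fin n → K))
    (hSmono : ∀ (K : Type) [Field K] [NumberField K] (T T' : ℝ), T ≤ T' → S K T ⊆ S K T')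
    (hSht : ∀ (K : Type) [Field K] [NumberField K] (T : ℝ), ∀ x ∈ S K T, ∀ j, Y120.HtLe K T (x j))
    (hScount : ∀ (K : Type) [Field K] [NumberField K] (io : K →+* ℂ), ∃ C : ℝ, 0 ≤ C ∧ ∀ (T : ℝ) (M : ℕ)
      (E : Set (Fin n → K)), 1 ≤ T → Cov M M ((fun (e : Fin n → K) j => io (e j)) '' E) → E ⊆ S K T →
        E.Finite ∧ (E.ncard : ℝ) ≤ C * (M : ℝ) ^ 2 * T ^ (a * Module.finrank ℚ K))
    {σ : ℝ} (hσ : 0 < σ) :
    ∃ E : Set (Fin n → 𝕜), dimH E ≤ ENNReal.ofReal (a / σ) ∧ ∀ ξ ∈ ⋃ i, U i, ξ ∉ E →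
      ∀ (K L : IntermediateField ℚ 𝕜) [NumberField K] [NumberField L] (d : ℕ) (A : ℝ), ∃ B : ℝ, ∀ C : ℝ,
        ∀ᶠ T : ℝ in atTop, ∀ x ∈ S K T, (∀ j, ‖ξ j - (x j : 𝕜)‖ ≤ C * T ^ (-(σ * Module.finrank ℚ K))) →
          ¬ RelatedAt (toC.comp (algebraMap L 𝕜)) d A B T (Z fun l => (x l : 𝕜)) := by
  classical
  have hcf := countable_fields' (𝕜 := 𝕜)
  have key : ∀ (i : ι × {F : IntermediateField ℚ 𝕜 // FiniteDimensional ℚ F} × ℕ × ℕ) (k : ℕ),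
      ∃ (B : IntermediateField ℚ 𝕜 → ℝ) (E : Set (Fin n → 𝕜)), (∀ K, 0 ≤ B K) ∧
        dimH E ≤ ENNReal.ofReal ((a + 1 / ((k : ℝ) + 1)) / σ) ∧
        (∀ ξ ∈ U i.1, ξ ∉ E →
        ∀ (_ : NumberField i.2.1.1) (K : IntermediateField ℚ 𝕜) [NumberField K] (C : ℝ), ∀ᶠ m : ℕ in atTop,
          ∀ x ∈ {x : Fin n → K | ∀ _ : NumberField K, x ∈ S K ((2 : ℝ) ^ m)},
            (∀ j, ‖ξ j - (x j : 𝕜)‖ ≤ C * ((2 : ℝ) ^ m) ^ (-(σ * Module.finrank ℚ K))) →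
              ¬ RelatedAt (toC.comp (algebraMap i.2.1.1 𝕜)) i.2.2.1 i.2.2.2 (B K) (2 ^ m) (Z fun l => (x l : 𝕜))) := by
    rintro ⟨b, ⟨F, hF⟩, d, A⟩ k
    have hNF : NumberField F := { to_charZero := inferInstance, to_finiteDimensional := hF }
    obtain ⟨B, hB, h⟩ := std_box toC Z (U b) (hU b) (hZ b) ha S hSht hScount F d A (Nat.cast_nonneg A)
      (1 / ((k : ℝ) + 1)) (by positivity)
    obtain ⟨E, hE, h'⟩ := h σ hσ
    exact ⟨B, E, hB, hE, fun ξ hξ hξE _ => h' ξ hξ hξE⟩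
  choose B E hB hE h using key
  refine ⟨⋃ i, ⋂ k, E i k, ?_, fun ξ hξ hξE => ?_⟩
  · rw [dimH_iUnion]
    refine iSup_le fun i => ?_
    have h0 : 0 ≤ a / σ := div_nonneg ha hσ.le
    refine Pool.Agent.N84.MD.dim_le_of_forall h0 fun Dd hDd => ?_
    rw [div_lt_iff₀ hσ] at hDd
    obtain ⟨k, hk⟩ := exists_nat_one_div_lt (show 0 < Dd * σ - a by linarith)
    refine (dimH_mono (Set.iInter_subset _ k)).trans ((hE i k).trans (ENNReal.ofReal_le_ofReal ?_))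
    rw [div_le_iff₀ hσ]
    linarith
  · intro K F _ _ d A
    obtain ⟨A', hA'⟩ := exists_nat_ge A
    obtain ⟨b, hb⟩ := Set.mem_iUnion.1 hξ
    have hfd : FiniteDimensional ℚ F := inferInstance
    have h1 : ξ ∉ ⋂ k, E (b, ⟨F, hfd⟩, d, A') k := fun h => hξE (Set.mem_iUnion.2 ⟨_, h⟩)
    rw [Set.mem_iInter] at h1
    push Not at h1
    obtain ⟨k, hk⟩ := h1
    have h2 := h (b, ⟨F, hfd⟩, d, A') k ξ hb hk inferInstance K
    obtain ⟨B₀, hB₀⟩ : ∃ B₀, B₀ = B (b, ⟨F, hfd⟩, d, A') k K := ⟨_, rfl⟩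
    have hB₀0 : 0 ≤ B₀ := hB₀ ▸ hB _ _ _
    rw [← hB₀] at h2
    refine ⟨B₀ + 1, fun C => ?_⟩
    obtain ⟨κ, hκ⟩ : ∃ κ : ℝ, κ = σ * Module.finrank ℚ K := ⟨_, rfl⟩
    have hκ0 : 0 ≤ κ := by rw [hκ]; positivity
    filter_upwards [lv_tendsto.eventually (h2 (|C| * 2 ^ κ)), eventually_ge_atTop ((2 : ℝ) ^ B₀),
      eventually_ge_atTop 1] with T hT hTB hT1 x hx hclose hrel
    obtain ⟨h3, h4⟩ := lv_spec hT1
    have hT0 : 0 < T := by linarith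
    rw [← hκ] at hT hclose
    refine hT x (fun _ => hSmono K T _ h3 hx) (fun j => (hclose j).trans ?_) ?_
    · have h5 : T ^ (-κ) ≤ 2 ^ κ * ((2 : ℝ) ^ lv T) ^ (-κ) := by
        have h6 : ((2 : ℝ) * T) ^ (-κ) ≤ ((2 : ℝ) ^ lv T) ^ (-κ) :=
          Real.rpow_le_rpow_of_nonpos (by positivity) h4 (by linarith)
        rw [Real.mul_rpow (by norm_num) hT0.le, Real.rpow_neg (by norm_num : (0 : ℝ) ≤ 2)] at h6
        have h7 : (0 : ℝ) < 2 ^ κ := by positivity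
        rw [inv_mul_le_iff₀ h7] at h6
        exact h6
      calc C * T ^ (-κ) ≤ |C| * T ^ (-κ) := mul_le_mul_of_nonneg_right (le_abs_self C) (by positivity)
        _ ≤ |C| * (2 ^ κ * ((2 : ℝ) ^ lv T) ^ (-κ)) := mul_le_mul_of_nonneg_left h5 (abs_nonneg _)
        _ = _ := by ring
    · obtain ⟨P, hP0, hPd, hPc, hPv⟩ := hrel
      refine ⟨P, hP0, hPd, fun e => (hPc e).trans ?_, hPv.trans ?_⟩
      · calc T ^ A ≤ T ^ (A' : ℝ) := Real.rpow_le_rpow_of_exponent_le hT1 hA'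
          _ ≤ ((2 : ℝ) ^ lv T) ^ (A' : ℝ) := Real.rpow_le_rpow hT0.le h3 (Nat.cast_nonneg _)
      · have h6 : ((2 : ℝ) * T) ^ (-B₀) ≤ ((2 : ℝ) ^ lv T) ^ (-B₀) :=
          Real.rpow_le_rpow_of_nonpos (by positivity) h4 (by linarith)
        refine le_trans ?_ h6
        rw [neg_add, Real.rpow_add hT0, Real.mul_rpow (by norm_num) hT0.le, Real.rpow_neg_one, mul_comm]
        refine mul_le_mul_of_nonneg_right ?_ (by positivity)
        rw [Real.rpow_neg (by norm_num : (0 : ℝ) ≤ 2)]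
        exact inv_anti₀ (by positivity) hTB

end

end Pool.Agent.D0H63.MR
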